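import Pool.Agent.H21.BD.Def
import Pool.Agent.H64.QUAD.Res

/-!
# BODY of degree `n`: hypotheses at the samples only

`QHd.res`: the types of the times and of the labels are replaced by the ranges. `bodyDCS_of`:
`BodyDC` gives `BodyDCS`.
-/

set_option autoImplicit false

namespace Pool.BD64

open Finset Real Matrix
open Pool.Agent.H49.Ent Pool.Agent.H32.Dense Pool.STK Pool.KS6 Pool.SLO
open Pool.QT64 (CH_iff pair_iff tup_ker)
open Pool.FAD (DF)
open Pool.POT (Tx xv DF_xv)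
open Pool.TT37 (dd)

variable {c k n : ℕ}

/-- The types are the ranges. -/
noncomputable def QHd.res (H : QHd c k n) : QHd c k n where
  Ω := H.Ω
  iΩ := H.iΩ
  B := H.B
  Vt := Set.range H.v
  Tt := Set.range H.th
  p := H.p
  b := H.b
  nu := H.nu
  v := fun ω => ⟨H.v ω, ω, rfl⟩
  th := fun ω => ⟨H.th ω, ω, rfl⟩
  tau := fun t => H.tau t.1
  E := fun t => H.E t.1
  y := fun v => H.y v.1
  be := fun v => H.be v.1
  g := fun t v => H.g t.1 v.1
  a0 := fun t => H.a0 t.1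
  b0 := fun v => H.b0 v.1

theorem res_th (H : QHd c k n) (ω ω' : H.Ω) :
    H.res.th ω = H.res.th ω' ↔ H.th ω = H.th ω' := by
  constructor
  · intro h
    exact Subtype.ext_iff.1 h
  · intro h
    exact Subtype.ext h

theorem res_v (H : QHd c k n) (ω ω' : H.Ω) : H.res.v ω = H.res.v ω' ↔ H.v ω = H.v ω' := by
  constructor
  · intro h
    exact Subtype.ext_iff.1 h
  · intro h
    exact Subtype.ext h

theorem res_line (H : QHd c k n) (ω ω' : H.Ω) :
    H.res.line ω = H.res.line ω' ↔ H.line ω = H.line ω' := by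
  have e := res_v H ω ω'
  constructor
  · intro h
    have h1 := Prod.ext_iff.1 h
    have h2 := Prod.ext_iff.1 h1.2
    exact Prod.ext h1.1 (Prod.ext (e.1 h2.1) h2.2)
  · intro h
    have h1 := Prod.ext_iff.1 h
    have h2 := Prod.ext_iff.1 h1.2
    exact Prod.ext h1.1 (Prod.ext (e.2 h2.1) h2.2)

theorem res_tup (H : QHd c k n) (N : ℕ) : tup H.res.p H.res.line N = tup H.p H.line N :=
  tup_ker (p := H.p) H.res.line H.line (res_line H) N

/-- The restricted picture. -/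
theorem res_okN {H : QHd c k n} {X : ℕ} {C d : ℝ} (h : H.OkNS X C d) : H.res.OkN X C d := by
  have hp := h.law.nonneg
  have e0 : ∀ ω ω' : H.Ω, H.b ω = H.b ω' ↔ H.b ω = H.b ω' := fun _ _ => Iff.rfl
  refine
    { law := h.law
      tau_r := ?_
      y_r := ?_
      E_b := ?_
      be_b := ?_
      hgt_b := h.hgt_b
      g_eq := ?_
      h0 := ?_
      h2 := ?_
      y_f := h.y_f
      t_f := h.t_f }
  · rintro ⟨-, ω, rfl⟩
    exact h.tau_r ω
  · rintro ⟨-, ω, rfl⟩ j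
    exact h.y_r ω j
  · rintro ⟨-, ω, rfl⟩ u i
    exact h.E_b ω u i
  · rintro ⟨-, ω, rfl⟩ s i
    exact h.be_b ω s i
  · rintro ⟨-, ω, rfl⟩ ⟨-, ω', rfl⟩ i
    exact h.g_eq ω ω' i
  · have e1 : CH H.p H.res.th H.b = CH H.p H.th H.b := CH_iff hp (res_th H) e0
    have e2 : CH H.p H.res.th H.res.line = CH H.p H.th H.line := CH_iff hp (res_th H) (res_line H)
    have e3 : CH H.res.p H.res.th H.res.b = CH H.p H.res.th H.b := rfl
    have e4 : CH H.res.p H.res.th H.res.line = CH H.p H.res.th H.res.line := rfl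
    rw [e3, e4, e1, e2]
    exact h.h0
  · have e5 : ∀ ω ω' : H.Ω, H.hgt ω = H.hgt ω' ↔ H.hgt ω = H.hgt ω' := fun _ _ => Iff.rfl
    have e1 : CH H.p H.hgt (fun ω => (H.res.th ω, H.b ω)) =
        CH H.p H.hgt (fun ω => (H.th ω, H.b ω)) := CH_iff hp e5 (pair_iff (res_th H) e0)
    have e2 : CH H.p H.hgt (fun ω => (H.res.v ω, (H.res.th ω, H.b ω))) =
        CH H.p H.hgt (fun ω => (H.v ω, (H.th ω, H.b ω))) :=
      CH_iff hp e5 (pair_iff (res_v H) (pair_iff (res_th H) e0))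
    have e3 : CH H.res.p H.res.hgt (fun ω => (H.res.th ω, H.res.b ω)) =
      CH H.p H.hgt (fun ω => (H.res.th ω, H.b ω)) := rfl
    have e4 : CH H.res.p H.res.hgt (fun ω => (H.res.v ω, (H.res.th ω, H.res.b ω))) =
      CH H.p H.hgt (fun ω => (H.res.v ω, (H.res.th ω, H.b ω))) := rfl
    rw [e3, e4, e1, e2]
    exact h.h2

/-- **(BODY of degree `n`, with the columns)**: every column of the body is a `(n + 2)`-point vector
or `2 ^ r` times a small axis. -/
def BodyDC (c k n : ℕ) : Prop :=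
  ∀ η : ℝ, 0 < η → ∃ io : ℝ, 0 < io ∧ ∀ C : ℝ, 1 ≤ C → ∃ (K1 : ℝ) (r X0 : ℕ),
    ∀ (H : QHd c k n) (X : ℕ), X0 ≤ X → H.OkN X C (io * X) →
    ∃ A0 : (Fin (n + 2) → H.Tt) → Matrix (Fin c) (Fin c) ℝ,
      (∀ t, (A0 t).det ≠ 0 ∧ (∀ i j, |A0 t i j| ≤ K1) ∧ (∀ i j, |(A0 t)⁻¹ i j| ≤ 2 ^ X) ∧
        (∀ u b, |((A0 t)⁻¹ *ᵥ dd n H.tau H.E u t) b| ≤ K1) ∧
        ∀ b, (∃ u, (fun i => A0 t i b) = dd n H.tau H.E u t) ∨
          ∃ j, (fun i => A0 t i b) = Pi.single j ((2 : ℝ) ^ r / 2 ^ X)) ∧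
      DF (tup H.p H.line (n + 2)) (fun _ => Tx c X)
        (fun w => A0 (fun j => H.th (w j.succ))) (fun w => xv X (H.hgt (w 0)))
        (fun w => (H.b (w 0), (H.th (w 0), fun j : Fin (n + 2) => H.th (w j.succ)))) ≤ η * X

/-- **(BODY of degree `n`, with the columns, hypotheses at the samples)** -/
def BodyDCS (c k n : ℕ) : Prop :=
  ∀ η : ℝ, 0 < η → ∃ io : ℝ, 0 < io ∧ ∀ C : ℝ, 1 ≤ C → ∃ (K1 : ℝ) (r X0 : ℕ),
    ∀ (H : QHd c k n) (X : ℕ), X0 ≤ X → H.OkNS X C (io * X) →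
    ∃ A0 : (Fin (n + 2) → H.Tt) → Matrix (Fin c) (Fin c) ℝ,
      (∀ t, (A0 t).det ≠ 0 ∧ (∀ i j, |A0 t i j| ≤ K1) ∧ ∀ i j, |(A0 t)⁻¹ i j| ≤ 2 ^ X) ∧
      (∀ (ω : Fin (n + 2) → H.Ω) (u : Fin k) (b : Fin c),
        |((A0 fun j => H.th (ω j))⁻¹ *ᵥ dd n H.tau H.E u fun j => H.th (ω j)) b| ≤ K1) ∧
      (∀ (ω : Fin (n + 2) → H.Ω) (b : Fin c),
        (∃ u, (fun i => A0 (fun j => H.th (ω j)) i b) = dd n H.tau H.E u fun j => H.th (ω j)) ∨
          ∃ j, (fun i => A0 (fun j => H.th (ω j)) i b) = Pi.single j ((2 : ℝ) ^ r / 2 ^ X)) ∧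
      DF (tup H.p H.line (n + 2)) (fun _ => Tx c X)
        (fun w => A0 (fun j => H.th (w j.succ))) (fun w => xv X (H.hgt (w 0)))
        (fun w => (H.b (w 0), (H.th (w 0), fun j : Fin (n + 2) => H.th (w j.succ)))) ≤ η * X

theorem bodyD_of_C {c k n : ℕ} (h : BodyDC c k n) : BodyD c k n := by
  intro η hη
  obtain ⟨io, hio, h⟩ := h η hη
  refine ⟨io, hio, fun C hC => ?_⟩
  obtain ⟨K1, r, X0, h⟩ := h C hC
  refine ⟨K1, X0, fun H X hX ok => ?_⟩
  obtain ⟨A0, hA, hD⟩ := h H X hX ok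
  exact ⟨A0, fun t => ⟨(hA t).1, (hA t).2.1, (hA t).2.2.1, (hA t).2.2.2.1⟩, hD⟩

theorem bodyDS_of_C {c k n : ℕ} (h : BodyDCS c k n) : BodyDS c k n := by
  intro η hη
  obtain ⟨io, hio, h⟩ := h η hη
  refine ⟨io, hio, fun C hC => ?_⟩
  obtain ⟨K1, r, X0, h⟩ := h C hC
  refine ⟨K1, X0, fun H X hX ok => ?_⟩
  obtain ⟨A0, hA, hA2, -, hD⟩ := h H X hX ok
  exact ⟨A0, hA, hA2, hD⟩

/-- **BODY of degree `n`, hypotheses at the samples.** -/
theorem bodyDCS_of (c k n : ℕ) (hB : BodyDC c k n) : BodyDCS c k n := by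
  classical
  intro η hη
  obtain ⟨io, hio, h⟩ := hB η hη
  refine ⟨io, hio, fun C hC => ?_⟩
  obtain ⟨K1, r, X0, h⟩ := h C hC
  refine ⟨max K1 1, r, X0, fun H X hX ok => ?_⟩
  obtain ⟨A, hA, hD⟩ := h H.res X hX (res_okN ok)
  rw [res_tup] at hD
  obtain ⟨A0, hA0⟩ : ∃ A0 : (Fin (n + 2) → H.Tt) → Matrix (Fin c) (Fin c) ℝ,
      A0 = fun t => if h : ∀ j, t j ∈ Set.range H.th then A (fun j => ⟨t j, h j⟩) else 1 :=
    ⟨_, rfl⟩
  have e1 : ∀ ω : Fin (n + 2) → H.Ω, A0 (fun j => H.th (ω j)) = A (fun j => H.res.th (ω j)) := by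
    intro ω
    rw [hA0]
    simp only
    rw [dif_pos fun j => ⟨ω j, rfl⟩]
    rfl
  refine ⟨A0, fun t => ?_, fun ω u b => ?_, fun ω b => ?_, ?_⟩
  · by_cases hh : ∀ j, t j ∈ Set.range H.th
    · choose ω hω using hh
      have e2 : t = fun j => H.th (ω j) := funext fun j => (hω j).symm
      rw [e2, e1]
      obtain ⟨a1, a2, a3, -⟩ := hA (fun j => H.res.th (ω j))
      exact ⟨a1, fun i j => (a2 i j).trans (le_max_left _ _), a3⟩
    · have e2 : A0 t = 1 := by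
        rw [hA0]
        simp only
        rw [dif_neg hh]
      rw [e2]
      refine ⟨by simp, fun i j => ?_, fun i j => ?_⟩
      · rw [Matrix.one_apply]
        split_ifs
        · rw [abs_one]
          exact le_max_right _ _
        · rw [abs_zero]
          exact zero_le_one.trans (le_max_right _ _)
      · have h1 : (1 : ℝ) ≤ 2 ^ X := one_le_pow₀ (by norm_num)
        rw [inv_one, Matrix.one_apply]
        split_ifs
        · rw [abs_one]
          exact h1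
        · rw [abs_zero]
          linarith
  · rw [e1]
    exact ((hA (fun j => H.res.th (ω j))).2.2.2.1 u b).trans (le_max_left _ _)
  · rw [e1]
    exact (hA (fun j => H.res.th (ω j))).2.2.2.2 b
  · have hp := tup_nonneg ok.law.nonneg H.line (n + 2)
    obtain ⟨T, hT⟩ : ∃ T : H.Ω → Set.range H.th, T = fun ω => ⟨H.th ω, ω, rfl⟩ := ⟨_, rfl⟩
    obtain ⟨A', hA'⟩ : ∃ A' : (Fin (n + 2) → Set.range H.th) → Matrix (Fin c) (Fin c) ℝ,
      A' = A := ⟨A, rfl⟩
    have hD' : DF (tup H.p H.line (n + 2)) (fun _ => Tx c X)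
        (fun w => A' (fun j => T (w j.succ))) (fun w => xv X (H.hgt (w 0)))
        (fun w => (H.b (w 0), (T (w 0), fun j : Fin (n + 2) => T (w j.succ)))) ≤ η * X := by
      rw [hT, hA']
      exact hD
    refine le_trans (le_of_eq ?_) hD'
    have e3 : (fun w : Fin (n + 2 + 1) → H.Ω => A0 (fun j => H.th (w j.succ))) =
        fun w => A' (fun j => T (w j.succ)) := by
      rw [hT, hA']
      exact funext fun w => e1 _
    rw [e3, DF_xv, DF_xv]
    have e4 : ∀ i : Fin (n + 2 + 1), ∀ w w' : Fin (n + 2 + 1) → H.Ω,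
        H.th (w i) = H.th (w' i) ↔ T (w i) = T (w' i) := fun i w w' => by
      rw [hT]
      exact (res_th H _ _).symm
    have e5 : ∀ w w' : Fin (n + 2 + 1) → H.Ω,
        ((fun j : Fin (n + 2) => H.th (w j.succ)) = fun j => H.th (w' j.succ)) ↔
          ((fun j : Fin (n + 2) => T (w j.succ)) = fun j => T (w' j.succ)) := fun w w' =>
      ⟨fun h => funext fun j => (e4 j.succ w w').1 (congrFun h j),
        fun h => funext fun j => (e4 j.succ w w').2 (congrFun h j)⟩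
    congr 1
    exact CH_iff hp (fun _ _ => Iff.rfl) (pair_iff (fun _ _ => Iff.rfl)
      (pair_iff (fun _ _ => Iff.rfl) (pair_iff (e4 0) e5)))

end Pool.BD64
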