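import Pool.Agent.H21.BD.Wld
import Pool.Agent.H21.BD.Res
import Pool.Agent.H43.BD.Two
import Pool.Agent.H64.POT.Body

/-!
# BODY of degree `n` from FULL of degree `n`

`bodyD_of_full : FullD c k n → BodyD c k n`.
-/

set_option autoImplicit false
set_option linter.unusedSectionVars false
set_option linter.unusedVariables false

namespace Pool.BD64

open Finset Real Matrix
open Pool.Agent.H49.Ent Pool.Agent.H32.Dense Pool.STK Pool.KS6 Pool.SLO Pool.QB32
open Pool.FAD Pool.POT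
open Pool.QC (QD mat)
open Pool.QT64 (Ls Ksc DF_scl div_real cons_gen tup_ker)

variable {c k n : ℕ}

/-- **BODY of degree `n`, the constant before the informations.** -/
theorem body0 (c k n : ℕ) (hF : FullD c k n) {C η : ℝ} (hC : 1 ≤ C) (hη : 0 < η) :
    ∃ (io : ℝ) (X0 : ℕ), 0 < io ∧
    ∀ (H : QHd c k n) (X : ℕ), X0 ≤ X → H.OkN X C (io * X) →
    DF (tup H.p H.line (n + 2)) (fun _ => Tx c X)
      (fun w => bdd X n H.tau H.E (fun j : Fin (n + 2) => H.th (w j.succ)))
      (fun w => xv X (H.hgt (w 0)))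
      (fun w => (H.b (w 0), (H.th (w 0), fun j : Fin (n + 2) => H.th (w j.succ)))) ≤ η * X := by
  obtain ⟨io, X0, hio, h⟩ := bodyRn c k n hF hC hη
  refine ⟨io / 2, X0, by positivity, fun H X hX ok => ?_⟩
  have hp := ok.law
  have h1 := h H.two X hX (Ok1_mono (two_ok1 H ok (by positivity)) (by linarith))
  have hm : Marg (tup H.two.p H.two.line (n + 1)) (tup H.p H.line (n + 2))
      (fun v => Fin.cons (v 0).1 (fun j => (v j).2)) :=
    cons_gen hp H.line (fun ω => (H.hgt ω, ((H.v ω, (H.b ω, H.th ω)), (H.b ω, H.th ω))))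
      (fun ω ω' e => two_line e) (n + 1)
  have h2 := DF_image (q := tup H.two.p H.two.line (n + 1)) (p := tup H.p H.line (n + 2))
    (f := fun v => Fin.cons (v 0).1 (fun j => (v j).2)) hm X
    (fun w => bdd X n H.tau H.E (fun j : Fin (n + 2) => H.th (w j.succ)))
    (fun w => H.hgt (w 0))
    (fun w => (H.b (w 0), (H.th (w 0), fun j : Fin (n + 2) => H.th (w j.succ))))
  rw [← h2]
  have hn := tup_nonneg (p2_law hp H.line).nonneg H.two.line (n + 1)
  refine (Pool.POT89.DF_drop hn _ _ _ ?_).trans h1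
  intro v v' _ _ e
  have e1 := Prod.ext_iff.1 e
  have g1 : (H.b (v 0).1, H.th (v 0).1) = (H.b (v' 0).1, H.th (v' 0).1) := e1.1
  have g2 : (fun j : Fin (n + 2) => H.th (v j).2) = fun j => H.th (v' j).2 := e1.2
  exact Prod.ext (Prod.ext_iff.1 g1).1 (Prod.ext (Prod.ext_iff.1 g1).2 g2)

/-- **BODY of degree `n` from FULL of degree `n`.** -/
theorem bodyDC_of_full (c k n : ℕ) (hF : FullD c k n) : BodyDC c k n := by
  intro η hη
  obtain ⟨io, X0, hio, h⟩ := body0 c k n hF (C := 3) (η := η / 2) (by norm_num) (by positivity)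
  refine ⟨io / 2, by positivity, fun C hC => ?_⟩
  obtain ⟨r, hr⟩ : ∃ r : ℕ, C ≤ 2 ^ r := by
    obtain ⟨r, hr⟩ := pow_unbounded_of_one_lt C (show (1 : ℝ) < 2 by norm_num)
    exact ⟨r, hr.le⟩
  have hrR : (0 : ℝ) < 2 ^ r := by positivity
  have hr1 : (1 : ℝ) ≤ 2 ^ r := one_le_pow₀ (by norm_num)
  have hn0 : (0 : ℝ) ≤ n := Nat.cast_nonneg n
  obtain ⟨Kd, hKd⟩ : ∃ Kd : ℝ, Kd = (c : ℝ) * Real.log 3 + Ls c r := ⟨_, rfl⟩
  obtain ⟨X1, hX1⟩ := exists_nat_ge (Kd / (io / 2))
  obtain ⟨X2, hX2⟩ := exists_nat_ge (Ksc c r / (η / 2))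
  obtain ⟨K1, hK1⟩ : ∃ K1 : ℝ, K1 = 2 ^ r * ((n + 2) * 3) + 1 := ⟨_, rfl⟩
  refine ⟨K1, r, max (max X0 1) (max X1 X2), fun H X hX ok => ?_⟩
  have l0 : X0 ≤ X := (le_max_left _ _).trans ((le_max_left _ _).trans hX)
  have l3 : 1 ≤ X := (le_max_right _ _).trans ((le_max_left _ _).trans hX)
  have l1 : (X1 : ℝ) ≤ X := by
    exact_mod_cast (le_max_left _ _).trans ((le_max_right _ _).trans hX)
  have l2 : (X2 : ℝ) ≤ X := by
    exact_mod_cast (le_max_right _ _).trans ((le_max_right _ _).trans hX)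
  have hb1 : Kd ≤ io / 2 * X := by
    have h1 := hX1.trans l1
    rw [div_le_iff₀ (by positivity)] at h1
    linarith
  have hb2 : Ksc c r ≤ η / 2 * X := by
    have h1 := hX2.trans l2
    rw [div_le_iff₀ (by positivity)] at h1
    linarith
  have hk := scl_okN H hr l3 ok
  rw [← hKd] at hk
  have hk' : (H.scl r).OkN X 3 (io * X) := OkN_mono hk (by linarith)
  have h1 := h (H.scl r) X l0 hk'
  have ht : tup (H.scl r).p (H.scl r).line (n + 2) = tup H.p H.line (n + 2) :=
    tup_ker (p := H.p) (H.scl r).line H.line (scl_line H r) (n + 2)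
  rw [ht] at h1
  obtain ⟨E', hE'⟩ : ∃ E' : H.Tt → Fin k → Fin c → ℝ, E' = fun t u i => H.E t u i / 2 ^ r :=
    ⟨_, rfl⟩
  obtain ⟨n', hn'⟩ : ∃ n' : H.Ω → Fin c → ℤ, n' = (H.scl r).hgt := ⟨_, rfl⟩
  have hE : ∀ t u i, |E' t u i| ≤ 3 := by
    rw [hE']
    exact hk.E_b
  have h1' : DF (tup H.p H.line (n + 2)) (fun _ => Tx c X)
        (fun w => bdd X n H.tau E' (fun j : Fin (n + 2) => H.th (w j.succ)))
        (fun w => xv X (n' (w 0)))
        (fun w => (H.b (w 0), (H.th (w 0), fun j : Fin (n + 2) => H.th (w j.succ)))) ≤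
        η / 2 * X := by
    rw [hE', hn']
    exact h1
  have hsc : ∀ t : Fin (n + 2) → H.Tt, ((2 : ℝ) ^ r • bdd X n H.tau E' t)⁻¹ =
      ((2 : ℝ) ^ r)⁻¹ • (bdd X n H.tau E' t)⁻¹ := by
    intro t
    refine Matrix.inv_eq_left_inv ?_
    rw [Matrix.smul_mul, Matrix.mul_smul, smul_smul, inv_mul_cancel₀ hrR.ne', one_smul,
      Matrix.nonsing_inv_mul _ (isUnit_iff_ne_zero.2 (bdd_det X n H.tau E' t))]
  refine ⟨fun t => (2 : ℝ) ^ r • bdd X n H.tau E' t, fun t => ?_, ?_⟩
  · dsimp only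
    refine ⟨?_, fun i j => ?_, fun i j => ?_, fun u b => ?_, fun b => ?_⟩
    · rw [Matrix.det_smul]
      exact mul_ne_zero (by positivity) (bdd_det X n H.tau E' t)
    · rw [Matrix.smul_apply, smul_eq_mul, abs_mul, abs_of_pos hrR]
      have h2 := bdd_entry X n H.tau E' (C := 3) (by norm_num) t (fun j => hE _) i j
      have h3 := mul_le_mul_of_nonneg_left h2 hrR.le
      rw [hK1]
      linarith
    · rw [hsc t, Matrix.smul_apply, smul_eq_mul, abs_mul, abs_of_pos (inv_pos.2 hrR)]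
      have h2 := bdd_inv X n H.tau E' t i j
      calc _ ≤ 1 * 2 ^ X := mul_le_mul (inv_le_one_of_one_le₀ hr1) h2 (abs_nonneg _) zero_le_one
        _ = _ := one_mul _
    · have h2 := bdd_dd X n H.tau E' t u b
      have h4 : Pool.TT37.dd n H.tau H.E u t = (2 : ℝ) ^ r • Pool.TT37.dd n H.tau E' u t := by
        rw [hE', dd_div n H.tau H.E ((2 : ℝ) ^ r) t u, smul_smul, mul_inv_cancel₀ hrR.ne', one_smul]
      have h3 : ((2 : ℝ) ^ r • bdd X n H.tau E' t)⁻¹ *ᵥ Pool.TT37.dd n H.tau H.E u t =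
          (bdd X n H.tau E' t)⁻¹ *ᵥ Pool.TT37.dd n H.tau E' u t := by
        rw [hsc t, h4, Matrix.smul_mulVec, Matrix.mulVec_smul, smul_smul,
          inv_mul_cancel₀ hrR.ne', one_smul]
      rw [h3, hK1]
      have : (0 : ℝ) < 2 ^ r * ((n + 2) * 3) := by positivity
      linarith
    · rcases bdd_col X n H.tau E' t b with ⟨u, hu⟩ | ⟨j, hj⟩
      · left
        refine ⟨u, ?_⟩
        have h4 : Pool.TT37.dd n H.tau H.E u t = (2 : ℝ) ^ r • Pool.TT37.dd n H.tau E' u t := by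
          rw [hE', dd_div n H.tau H.E ((2 : ℝ) ^ r) t u, smul_smul, mul_inv_cancel₀ hrR.ne',
            one_smul]
        rw [h4, ← hu]
        rfl
      · right
        refine ⟨j, ?_⟩
        have h4 : (fun i => ((2 : ℝ) ^ r • bdd X n H.tau E' t) i b) =
            (2 : ℝ) ^ r • fun i => bdd X n H.tau E' t i b := rfl
        rw [h4, hj]
        funext i
        rw [Pi.smul_apply, Pi.single_apply, Pi.single_apply, smul_eq_mul]
        split_ifs
        · rw [div_eq_mul_inv]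
        · rw [mul_zero]
  · have hlw := tup_isLaw ok.law H.line (n + 2)
    have h2 := DF_scl hlw X r (A := fun w => bdd X n H.tau E'
        (fun j : Fin (n + 2) => H.th (w j.succ)))
      (fun w => H.hgt (w 0)) (fun w => n' (w 0))
      (fun w => (H.b (w 0), (H.th (w 0), fun j : Fin (n + 2) => H.th (w j.succ))))
      (fun w => bdd_det _ _ _ _ _) (fun w => bdd_inv _ _ _ _ _) (by
        intro w i
        have e3 : n' (w 0) i = H.nu (w 0) i / 2 ^ r +
          H.g (H.th (w 0)) (H.v (w 0)) i / 2 ^ r := by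
          rw [hn']
          rfl
        have e4 : H.hgt (w 0) i = H.nu (w 0) i + H.g (H.th (w 0)) (H.v (w 0)) i := rfl
        have g1 := div_real (H.nu (w 0) i) r
        have g2 := div_real (H.g (H.th (w 0)) (H.v (w 0)) i) r
        rw [e3, e4]
        push_cast
        rw [abs_le] at g1 g2 ⊢
        rw [add_div]
        constructor <;> linarith [g1.1, g1.2, g2.1, g2.2])
    refine h2.trans ?_
    linarith

theorem bodyD_of_full (c k n : ℕ) (hF : FullD c k n) : BodyD c k n :=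
  bodyD_of_C (bodyDC_of_full c k n hF)

theorem bodyDS_of_full (c k n : ℕ) (hF : FullD c k n) : BodyDS c k n :=
  bodyDS_of_C (bodyDCS_of c k n (bodyDC_of_full c k n hF))

end Pool.BD64
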