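import Pool.Agent.H21.BD.Le
import Pool.Agent.H21.BD.Body
import Pool.Agent.H64.BD.Vn
import Pool.Agent.H43.BD.Sig

/-!
# BODY in every degree

`full_d`, `body_dc`, `body_dcs`, `body_d`, `body_ds`: the statements `FullD`, `BodyDC`, `BodyDCS`,
`BodyD`, `BodyDS` for `1 ≤ n`.
-/

set_option autoImplicit false

namespace Pool.BD64

/-- **FULL of degree `n`.** -/
theorem full_d (c k n : ℕ) (hn : 1 ≤ n) : FullD c k n :=
  fullD_of c k n (v_all c k n hn) (sgl_stmt c k n)

/-- **BODY of degree `n`, with the columns.** -/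
theorem body_dc (c k n : ℕ) (hn : 1 ≤ n) : BodyDC c k n := bodyDC_of_full c k n (full_d c k n hn)

/-- **BODY of degree `n`, with the columns, hypotheses at the samples.** -/
theorem body_dcs (c k n : ℕ) (hn : 1 ≤ n) : BodyDCS c k n := bodyDCS_of c k n (body_dc c k n hn)

/-- **BODY of degree `n`.** -/
theorem body_d (c k n : ℕ) (hn : 1 ≤ n) : BodyD c k n := bodyD_of_C (body_dc c k n hn)

/-- **BODY of degree `n`, hypotheses at the samples.** -/
theorem body_ds (c k n : ℕ) (hn : 1 ≤ n) : BodyDS c k n := bodyDS_of_C (body_dcs c k n hn)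

end Pool.BD64
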