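import Pool.Agent.H21.BD.Star

/-!
# The body of `n + 2` times

`bdd`: the body spanned by the `c` vectors of largest determinant among the `(n + 2)`-point vectors
`dd` and the small axes.
-/

set_option autoImplicit false

namespace Pool.BD64

open Finset Real Matrix
open Pool.Agent.H49.Ent Pool.Agent.H32.Dense Pool.STK Pool.KS6 Pool.SLO
open Pool.QC (mat QD)
open Pool.POT (Tx xv)
open Pool.TT37 (dd pj)

variable {c k n : ℕ}

/-- The family: the `(n + 2)`-point vectors and the small axes. -/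
noncomputable def fmd {T : Type} (X n : ℕ) (tau : T → ℤ) (E : T → Fin k → Fin c → ℝ)
    (t : Fin (n + 2) → T) : Fin k ⊕ Fin c → Fin c → ℝ
  | .inl u => dd n tau E u t
  | .inr i => Pi.single i ((2 : ℝ) ^ X)⁻¹

section body

variable {T : Type} (X n : ℕ) (tau : T → ℤ) (E : T → Fin k → Fin c → ℝ)

theorem exists_bdd (t : Fin (n + 2) → T) : ∃ f : Fin c → Fin k ⊕ Fin c,
    (mat fun b => fmd X n tau E t (f b)).det ≠ 0 ∧
    ∀ v b, |((mat fun b => fmd X n tau E t (f b))⁻¹ *ᵥ fmd X n tau E t v) b| ≤ 1 := by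
  refine Pool.QC.exists_basis (fmd X n tau E t) (fun b => .inr b) ?_
  have e : (mat fun b => fmd X n tau E t (.inr b)) = Tx c X := by
    ext i j
    simp only [mat, fmd, Tx, Matrix.of_apply, Matrix.diagonal_apply, Pi.single_apply]
  rw [e]
  exact Pool.POT.Tx_det c X

/-- The chosen vectors. -/
noncomputable def bfd (t : Fin (n + 2) → T) : Fin c → Fin k ⊕ Fin c :=
  (exists_bdd X n tau E t).choose

/-- The body of `n + 2` times. -/
noncomputable def bdd (t : Fin (n + 2) → T) : Matrix (Fin c) (Fin c) ℝ :=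
  mat fun b => fmd X n tau E t (bfd X n tau E t b)

theorem bdd_det (t : Fin (n + 2) → T) : (bdd X n tau E t).det ≠ 0 :=
  (exists_bdd X n tau E t).choose_spec.1

theorem bdd_le (t : Fin (n + 2) → T) (v : Fin k ⊕ Fin c) (b : Fin c) :
    |((bdd X n tau E t)⁻¹ *ᵥ fmd X n tau E t v) b| ≤ 1 :=
  (exists_bdd X n tau E t).choose_spec.2 v b

/-- The `(n + 2)`-point vectors lie in the body. -/
theorem bdd_dd (t : Fin (n + 2) → T) (u : Fin k) (b : Fin c) :
    |((bdd X n tau E t)⁻¹ *ᵥ dd n tau E u t) b| ≤ 1 := bdd_le X n tau E t (.inl u) b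

theorem bdd_inv (t : Fin (n + 2) → T) (i j : Fin c) : |(bdd X n tau E t)⁻¹ i j| ≤ 2 ^ X := by
  have e := bdd_le X n tau E t (.inr j) i
  have e1 : fmd X n tau E t (.inr j) = Pi.single j ((2 : ℝ) ^ X)⁻¹ := rfl
  rw [e1, Matrix.mulVec_single] at e
  simp only [Pi.smul_apply, MulOpposite.smul_eq_mul_unop, MulOpposite.unop_op,
    Matrix.col_apply] at e
  rw [abs_mul, abs_of_pos (by positivity : (0 : ℝ) < ((2 : ℝ) ^ X)⁻¹), ← div_eq_mul_inv,
    div_le_one (by positivity)] at e
  exact e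

/-- The columns of the body. -/
theorem bdd_col (t : Fin (n + 2) → T) (b : Fin c) :
    (∃ u : Fin k, (fun i => bdd X n tau E t i b) = dd n tau E u t) ∨
    ∃ j, (fun i => bdd X n tau E t i b) = Pi.single j ((2 : ℝ) ^ X)⁻¹ := by
  have e : (fun i => bdd X n tau E t i b) = fmd X n tau E t (bfd X n tau E t b) := rfl
  rw [e]
  rcases bfd X n tau E t b with u | i
  · exact Or.inl ⟨u, rfl⟩
  · exact Or.inr ⟨i, rfl⟩

/-- The size of a `(n + 2)`-point vector. -/
theorem dd_bd {C : ℝ} (t : Fin (n + 2) → T) (hE : ∀ j u i, |E (t j) u i| ≤ C) (u : Fin k)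
    (i : Fin c) : |dd n tau E u t i| ≤ (n + 2) * C := by
  classical
  have hC : 0 ≤ C := (abs_nonneg _).trans (hE 0 u i)
  unfold dd
  split_ifs with h
  · refine (Finset.abs_sum_le_sum_abs _ _).trans ?_
    have h1 : ∀ j ∈ (Finset.univ : Finset (Fin (n + 2))),
        |pj (fun j => (tau (t j) : ℝ)) 0 / pj (fun j => (tau (t j) : ℝ)) j * E (t j) u i| ≤ C := by
      intro j _
      rw [abs_mul]
      have h2 : |pj (fun j => (tau (t j) : ℝ)) 0 / pj (fun j => (tau (t j) : ℝ)) j| ≤ 1 := by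
        rw [abs_div]
        exact div_le_one_of_le₀ (h.2 j) (abs_nonneg _)
      calc _ ≤ 1 * C := mul_le_mul h2 (hE j u i) (abs_nonneg _) zero_le_one
        _ = C := one_mul C
    refine (Finset.sum_le_sum h1).trans (le_of_eq ?_)
    rw [Finset.sum_const, Finset.card_univ, Fintype.card_fin, nsmul_eq_mul]
    push_cast
    ring
  · rw [abs_zero]
    positivity

theorem bdd_entry {C : ℝ} (hC : 1 ≤ C) (t : Fin (n + 2) → T) (hE : ∀ j u i, |E (t j) u i| ≤ C)
    (i j : Fin c) : |bdd X n tau E t i j| ≤ (n + 2) * C := by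
  have hn : (0 : ℝ) ≤ n := Nat.cast_nonneg n
  rcases bdd_col X n tau E t j with ⟨u, hu⟩ | ⟨l, hl⟩
  · have e : bdd X n tau E t i j = dd n tau E u t i := congrFun hu i
    rw [e]
    exact dd_bd n tau E t hE u i
  · have e : bdd X n tau E t i j = (Pi.single l ((2 : ℝ) ^ X)⁻¹ : Fin c → ℝ) i := congrFun hl i
    rw [e, Pi.single_apply]
    have h2 : (1 : ℝ) ≤ (n + 2) * C := by nlinarith
    split_ifs
    · rw [abs_of_pos (by positivity)]
      have : ((2 : ℝ) ^ X)⁻¹ ≤ 1 := inv_le_one_of_one_le₀ (one_le_pow₀ (by norm_num))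
      linarith
    · rw [abs_zero]
      linarith

/-- The vector depends on the times through `tau` and `E` only. -/
theorem dd_tr {T' : Type} {tau' : T' → ℤ} {E' : T' → Fin k → Fin c → ℝ} {t : Fin (n + 2) → T}
    {t' : Fin (n + 2) → T'} (h : ∀ j, tau' (t' j) = tau (t j) ∧ E' (t' j) = E (t j)) (u : Fin k) :
    dd n tau' E' u t' = dd n tau E u t := by
  funext i
  unfold dd
  have e1 : (fun j => tau' (t' j)) = fun j => tau (t j) := funext fun j => (h j).1
  have e2 : (fun j => (tau' (t' j) : ℝ)) = fun j => (tau (t j) : ℝ) :=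
    funext fun j => by rw [(h j).1]
  have e3 : ∀ j, E' (t' j) u i = E (t j) u i := fun j => by rw [(h j).2]
  simp only [e2, e3]
  rw [e1]

/-- The vectors of scaled slopes. -/
theorem dd_div (a : ℝ) (t : Fin (n + 2) → T) (u : Fin k) :
    dd n tau (fun t u i => E t u i / a) u t = a⁻¹ • dd n tau E u t := by
  classical
  funext i
  rw [Pi.smul_apply, smul_eq_mul]
  unfold dd
  split_ifs
  · rw [Finset.mul_sum]
    refine Finset.sum_congr rfl fun j _ => ?_
    show _ * (E (t j) u i / a) = _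
    rw [div_eq_mul_inv (E (t j) u i)]
    ring
  · rw [mul_zero]

end body

end Pool.BD64
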