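import Pool.Agent.H64.BD.Dd
import Pool.Agent.H21.QW.Fin

/-!
# BODY of degree `n`: definitions for the star

`QHd.toQ`: the picture `QH` with the same data and `be = 0` (the identity of the height does not
hold for it). `QHd.Ok1`: the hypotheses when also `nu` is almost independent of `v`. `GoodG`: the
world and the times of a star are in a graph of degree `n`. `QHd.GQ`: the same for the block of a
picture.
-/

set_option autoImplicit false

namespace Pool.BD64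

open Finset Real
open Pool.Agent.H49.Ent Pool.Agent.H32.Dense Pool.CH30 Pool.STK Pool.KS6 Pool.SLO Pool.RC21
open Pool.QT64 (QH)
open Pool.QC (QD Absb)

variable {c k n : ℕ}

/-- The picture `QH` with the same data and `be = 0`. -/
@[reducible] def QHd.toQ (H : QHd c k n) : QH c k where
  Ω := H.Ω
  iΩ := H.iΩ
  B := H.B
  Vt := H.Vt
  Tt := H.Tt
  p := H.p
  b := H.b
  nu := H.nu
  v := H.v
  th := H.th
  tau := H.tau
  E := H.E
  y := H.y
  be := fun _ => 0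
  g := H.g
  a0 := H.a0
  b0 := H.b0

/-- The hypotheses when also `nu` is almost independent of `v`. -/
structure QHd.Ok1 (H : QHd c k n) (X : ℕ) (C d : ℝ) : Prop where
  law : IsLaw H.p
  tau_r : ∀ t, 0 ≤ H.tau t ∧ H.tau t < 2 ^ X
  y_r : ∀ v j, 0 ≤ H.y v j ∧ H.y v j < 2 ^ X
  E_b : ∀ t u i, |H.E t u i| ≤ C
  be_b : ∀ v s i, |H.be v s i| ≤ C
  nu_b : ∀ ω i, |(H.nu ω i : ℝ)| ≤ C * 2 ^ X
  g_eq : ∀ t v i, |(H.g t v i : ℝ) -
    (pol X (H.be v) (H.tau t) i - ∑ u, H.E t u i * H.y v u + H.a0 t i + H.b0 v i)| ≤ C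
  h0 : CH H.p H.th H.b - CH H.p H.th H.line ≤ d
  h1 : CH H.p H.nu H.b - CH H.p H.nu (fun ω => (H.v ω, (H.th ω, H.b ω))) ≤ d
  h2 : CH H.p H.hgt (fun ω => (H.th ω, H.b ω)) -
    CH H.p H.hgt (fun ω => (H.v ω, (H.th ω, H.b ω))) ≤ d
  y_f : k * X * Real.log 2 - d ≤ CH H.p (fun ω => H.y (H.v ω)) H.b
  t_f : X * Real.log 2 - d ≤ CH H.p (fun ω => H.tau (H.th ω)) H.b

theorem Ok1_mono {H : QHd c k n} {X : ℕ} {C d d' : ℝ} (h : H.Ok1 X C d) (hd : d ≤ d') :
    H.Ok1 X C d' :=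
  { h with
    h0 := h.h0.trans hd
    h1 := h.h1.trans hd
    h2 := h.h2.trans hd
    y_f := by
      have := h.y_f
      linarith
    t_f := by
      have := h.t_f
      linarith }

/-- The time, in the set of the values. -/
def QHd.T' (H : QHd c k n) (ω : H.Ω) : Set.range H.th := ⟨H.th ω, ω, rfl⟩

/-- The label, in the set of the values. -/
def QHd.V' (H : QHd c k n) (ω : H.Ω) : Set.range H.v := ⟨H.v ω, ω, rfl⟩

/-- The world and the line. -/
def QHd.KK (H : QHd c k n) {Ee : Type} (w : Ee × H.Ω) : Ee × ((Fin c → ℤ) × (H.Vt × H.B)) :=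
  (w.1, H.line w.2)

theorem toQ_Ω (H : QHd c k n) : H.toQ.Ω = H.Ω := rfl

theorem toQ_line (H : QHd c k n) : H.toQ.line = H.line := rfl

theorem toQ_hgt (H : QHd c k n) : H.toQ.hgt = H.hgt := rfl

theorem toQ_KK (H : QHd c k n) (Ee : Type) :
    (Pool.QT64.QH.KK H.toQ : Ee × H.Ω → Ee × ((Fin c → ℤ) × (H.Vt × H.B))) = H.KK := rfl

theorem T'_iff (H : QHd c k n) (w w' : H.Ω) : H.T' w = H.T' w' ↔ H.th w = H.th w' :=
  Subtype.ext_iff

theorem V'_iff (H : QHd c k n) (w w' : H.Ω) : H.V' w = H.V' w' ↔ H.v w = H.v w' :=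
  Subtype.ext_iff

section

variable {Ω₀ : Type} [Fintype Ω₀] {B τ : Type} {p₀ : Ω₀ → ℝ} {b₀ : Ω₀ → B} {n₀ : Ω₀ → Fin c → ℤ}

/-- The conclusion of the star at the world `e` and the times `th`, in degree `n`. -/
def GoodG (n : ℕ) (Z : Blk p₀ b₀ n₀) (ε C q : ℝ) (Xd : ℕ) {J : ℕ} (tau : τ → ℤ)
    (E : τ → Fin k → Fin c → ℝ) (e : (Fin c → ℤ) × B) (th : Fin J → τ) : Prop :=
  ∃ (D : QD c k) (bs : D.VV → Fin (n + 1) → Fin c → ℝ), OkG D bs Xd C q ∧
    Absb (rw' Z e) Z.y D.A ε ∧ ∃ sp : Fin J → D.TT,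
    (∀ j, D.tau (sp j) = tau (th j) ∧ D.E (sp j) = E (th j)) ∧ (∀ j l, D.adj (sp j) l) ∧
    q ≤ D.cnV sp

end

/-- The graph at the world of a block and at the times of a tuple. -/
def QHd.GQ (H : QHd c k n) (Z : Blk H.p H.b H.nu) (ε0 C q : ℝ) (X : ℕ) {N : ℕ}
    (e : (Fin c → ℤ) × H.B) (t : Fin N → Set.range H.th) : Prop :=
  GoodG n Z (ε0 * X) C q X (fun t : Set.range H.th => H.tau t.1)
    (fun t : Set.range H.th => H.E t.1) e t

end Pool.BD64
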