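import Pool.Agent.H21.BD.Def
import Pool.Agent.H64.BD.Kn

/-!
# The last step: definitions

`cel`: the cell of a tuple of labels. `sgl`: the signal. `Yl`: the increment of the coordinate `u`.
-/

set_option autoImplicit false

namespace Pool.BD64

open Finset Real
open Pool.QC (QD)
open Pool.TT37 (dd pj)

variable {c k n : ℕ}

/-- The ratios of the products of the times. -/
noncomputable def lmb (D : QD c k) (s : Fin (n + 2) → D.TT) (j : Fin (n + 2)) : ℝ :=
  pj (fun j => (D.tau (s j) : ℝ)) 0 / pj (fun j => (D.tau (s j) : ℝ)) j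

/-- The times are different, and no ratio is larger than one. -/
def Lgl (D : QD c k) (s : Fin (n + 2) → D.TT) : Prop :=
  Function.Injective (fun j => D.tau (s j)) ∧
    ∀ j, |pj (fun j => (D.tau (s j) : ℝ)) 0| ≤ |pj (fun j => (D.tau (s j) : ℝ)) j|

/-- The cell of a tuple of labels. -/
noncomputable def cel {V : Type} (y : V → Fin k → ℤ) (u : Fin k) {m : ℕ} (lam : Fin (m + 1) → ℝ)
    (om : Fin (m + 1) → V) : (Fin (m + 1) → Fin k → ℤ) × (Fin (m + 1) → ℤ) :=
  (fun j i => if i = u then 0 else y (om j) i,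
    fun j => ⌊(y (om j) u : ℝ) - lam j * (y (om 0) u : ℝ)⌋)

/-- The signal. -/
def sgl (D : QD c k) (s : Fin (n + 2) → D.TT) (W : Bool × Fin (n + 2) → D.VV) : Fin c → ℤ :=
  ∑ j : Fin (n + 1), (D.g (s j.succ) (W (true, j.succ)) - D.g (s 0) (W (true, j.succ)) -
    D.g (s j.succ) (W (false, j.succ)) + D.g (s 0) (W (false, j.succ)))

/-- The increment of the coordinate `u`. -/
def Yl (D : QD c k) (u : Fin k) (W : Bool × Fin (n + 2) → D.VV) : ℤ :=
  D.y (W (true, 0)) u - D.y (W (false, 0)) u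

/-- **(L2)** The signal is the increment times the vector `- dd`, up to the body. -/
def SglStmt (c k n : ℕ) : Prop := ∀ C : ℝ, 1 ≤ C → ∃ a : ℝ, 0 ≤ a ∧
  ∀ (D : QD c k) (bs : D.VV → Fin (n + 1) → Fin c → ℝ) (X : ℕ) (q : ℝ), OkG D bs X C q →
  ∀ (s : Fin (n + 2) → D.TT) (u : Fin k), Lgl D s →
  ∀ B : Matrix (Fin c) (Fin c) ℝ, B.det ≠ 0 → (∀ i j, |B⁻¹ i j| ≤ 2 ^ X) →
  ∀ W : Bool × Fin (n + 2) → D.VV, (∀ l a, D.adj (s l) (W a)) →
    cel D.y u (lmb D s) (fun j => W (true, j)) = cel D.y u (lmb D s) (fun j => W (false, j)) →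
    Kn D bs X B W → ∀ b : Fin c,
      |(B⁻¹.mulVec fun i => ((sgl D s W i : ℝ) + dd n D.tau D.E u s i * Yl D u W) / 2 ^ X) b| ≤ a

end Pool.BD64
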