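import Pool.Agent.H21.BD.Lw
import Pool.Agent.H21.BD.Bd
import Pool.Agent.H64.BD.Add
import Pool.Agent.H64.BD.Sel

/-!
# The last step: FULL of degree `n` from (V) and (L2)

`fullD_of`: `VStmt` and `SglStmt` give `FullD`.
-/

set_option autoImplicit false
set_option linter.unusedSectionVars false
set_option linter.unusedVariables false

namespace Pool.BD64

open Finset Real Matrix
open Pool.Agent.H49.Ent Pool.Agent.H32.Dense Pool.STK Pool.KS6 Pool.SLO Pool.RC21
open Pool.FAD Pool.CLO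
open Pool.POT (Tx)
open Pool.QC (mat xx QD Absb)
open Pool.TT37 (dd pj)

variable {c k n : ℕ}

/-- The entropy of a variable whose values have small mass. -/
theorem H_min {Ω S : Type} [Fintype Ω] {p : Ω → ℝ} (hp : IsLaw p) (Y : Ω → S) {α : ℝ}
    (h : ∀ ω, 0 < p ω → law p Y (Y ω) ≤ α) : -Real.log α ≤ H p Y := by
  classical
  unfold H
  have h1 : ∀ ω, p ω * Real.log (law p Y (Y ω)) ≤ p ω * Real.log α := by
    intro ω
    rcases (hp.nonneg ω).eq_or_lt with h0 | h0
    · rw [← h0, zero_mul, zero_mul]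
    · exact mul_le_mul_of_nonneg_left (Real.log_le_log (law_pos hp.nonneg Y h0) (h ω h0)) h0.le
  have h2 := Finset.sum_le_sum fun ω (_ : ω ∈ Finset.univ) => h1 ω
  rw [← Finset.sum_mul, hp.sum_one, one_mul] at h2
  linarith

theorem okG_mono {D : QD c k} {bs : D.VV → Fin (n + 1) → Fin c → ℝ} {X : ℕ} {C q q' : ℝ}
    (h : OkG D bs X C q) (hq : q' ≤ q) : OkG D bs X C q' :=
  { h with
    deg_T := fun t => hq.trans (h.deg_T t)
    deg_V := fun v => hq.trans (h.deg_V v) }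

/-! ### The signal as a combination of elements of `A` -/

section sig

variable (D : QD c k) (s : Fin (n + 2) → D.TT)

/-- The time of an element. -/
def tmi (a : Bool) (j : Fin (n + 1)) : Fin (n + 2) := if a = true then j.succ else 0

/-- The sign. -/
def sgi (a e : Bool) : ℤ := if a = e then 1 else -1

theorem sgl_eq (om b : Fin (n + 2) → D.VV) : sgl D s (jn om b) =
    ∑ i : Fin (n + 1) × (Bool × Bool), sgi i.2.1 i.2.2 •
      (D.g (s (tmi i.2.1 i.1)) (jn om b (i.2.2, i.1.succ)) - D.ref (s (tmi i.2.1 i.1))) := by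
  rw [Fintype.sum_prod_type]
  unfold sgl
  refine Finset.sum_congr rfl fun j _ => ?_
  rw [Fintype.sum_prod_type, Fintype.sum_bool, Fintype.sum_bool, Fintype.sum_bool]
  simp only [sgi, tmi, if_true, Bool.false_eq_true, Bool.true_eq_false, if_false, one_smul,
    neg_smul]
  abel

theorem sgi_sum : ∑ i : Fin (n + 1) × (Bool × Bool), |((sgi i.2.1 i.2.2 : ℤ) : ℝ)| =
    4 * (n + 1) := by
  have h1 : ∀ i : Fin (n + 1) × (Bool × Bool), |((sgi i.2.1 i.2.2 : ℤ) : ℝ)| = 1 := by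
    intro i
    unfold sgi
    split_ifs <;> simp
  rw [Finset.sum_congr rfl fun i _ => h1 i, Finset.sum_const, Finset.card_univ, nsmul_eq_mul,
    mul_one, Fintype.card_prod, Fintype.card_prod, Fintype.card_bool, Fintype.card_fin]
  push_cast
  ring

end sig

/-! ### One vector -/

/-- The total weight. -/
noncomputable def qq (n : ℕ) (C q : ℝ) : ℝ :=
  (q ^ 2 / 2) ^ (2 * (n + 1 + 1)) / (4 ^ (n + 1) * C ^ (n + 1 + 1))

theorem qq_pos {n : ℕ} {C q : ℝ} (hC : 0 < C) (hq : 0 < q) : 0 < qq n C q := by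
  unfold qq
  positivity

theorem qq_le {n : ℕ} {C q : ℝ} (hC : 1 ≤ C) (hq : 0 < q) (hq1 : q ≤ 1) : qq n C q ≤ 1 := by
  unfold qq
  rw [div_le_one (by positivity)]
  have h1 : q ^ 2 / 2 ≤ 1 := by nlinarith
  have h2 : (q ^ 2 / 2) ^ (2 * (n + 1 + 1)) ≤ 1 := pow_le_one₀ (by positivity) h1
  have h3 : (1 : ℝ) ≤ 4 ^ (n + 1) := one_le_pow₀ (by norm_num)
  have h4 : (1 : ℝ) ≤ C ^ (n + 1 + 1) := one_le_pow₀ hC
  nlinarith

open Classical in
/-- **One vector.** -/
theorem one_dd {D : QD c k} {bs : D.VV → Fin (n + 1) → Fin c → ℝ} {X : ℕ} {C q : ℝ}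
    (h : OkG D bs X C q) (hC : 1 ≤ C) (hq : 0 < q) (hq1 : q ≤ 1) {Ω : Type} [Fintype Ω]
    {p : Ω → ℝ} {R : Ω → Fin c → ℤ} (hp : IsLaw p) {ε : ℝ} (hε : 0 ≤ ε) (hA : Absb p R D.A ε)
    {s : Fin (n + 2) → D.TT} (hs : q ≤ D.cnV s) (u : Fin k) {ka' η τ a : ℝ} (hτ : 0 ≤ τ)
    (hη : 0 ≤ η) (ha : 0 ≤ a) (hqq : (2 : ℝ) ^ (-(ka' * X)) ≤ qq n C q / 2)
    (hV : ∀ (J : Type) (_ : Fintype J) (_ : DecidableEq J) (j0 : J) (P : (J → D.VV) → ℝ),
      Wt D j0 P ((2 : ℝ) ^ (-(ka' * X))) → ∃ B, Bd p R X η B ∧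
      (2 : ℝ) ^ (-(τ * X)) * ∑ W, P W ≤ ∑ W, if Kn D bs X B W then P W else 0)
    (hS : Lgl D s → ∀ B : Matrix (Fin c) (Fin c) ℝ, B.det ≠ 0 → (∀ i j, |B⁻¹ i j| ≤ 2 ^ X) →
      ∀ W : Bool × Fin (n + 2) → D.VV, (∀ l a, D.adj (s l) (W a)) →
      cel D.y u (lmb D s) (fun j => W (true, j)) = cel D.y u (lmb D s) (fun j => W (false, j)) →
      Kn D bs X B W → ∀ b : Fin c,
      |(B⁻¹ *ᵥ fun i => ((sgl D s W i : ℝ) + dd n D.tau D.E u s i * Yl D u W) / 2 ^ X) b| ≤ a) :
    ∃ S, Bd p R X (η + ((1 + 4 * (n + 1)) * ε + (τ * X * Real.log 2 - Real.log (qq n C q / 2))) +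
      Ka c a ((n + 2) * C)) S ∧ InB S (dd n D.tau D.E u s) := by
  have hC0 : 0 < C := by linarith
  have hX2 : (0 : ℝ) < 2 ^ X := by positivity
  have hqq0 := qq_pos (n := n) hC0 hq
  have hqq1 := qq_le (n := n) hC hq hq1
  have hlq : Real.log (qq n C q / 2) ≤ 0 := Real.log_nonpos (by positivity) (by linarith)
  have hl2 : 0 < Real.log 2 := Real.log_pos (by norm_num)
  have hn0 : (0 : ℝ) ≤ n := Nat.cast_nonneg n
  have hκ0 : 0 ≤ τ * X * Real.log 2 - Real.log (qq n C q / 2) := by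
    have : 0 ≤ τ * X * Real.log 2 := by positivity
    linarith
  have hcc0 : (0 : ℝ) ≤ c := Nat.cast_nonneg c
  have hKa : 0 ≤ Ka c a ((n + 2) * C) := by
    unfold Ka Cl
    have h1 : (0 : ℝ) ≤ Real.log 2 := hl2.le
    have h2 : (0 : ℝ) ≤ Real.log (2 * (2 * (2 * a) + 1 + 2 + 1) + 1) :=
      Real.log_nonneg (by linarith)
    have h3 : (0 : ℝ) ≤ Real.log (2 * (2 * 2 * (1 + a) + 1) + 1) := Real.log_nonneg (by linarith)
    have h4 : (0 : ℝ) ≤ Real.log (2 * (2 + 1) + 1) := Real.log_nonneg (by norm_num)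
    have h5 : (0 : ℝ) ≤ Real.log 5 := Real.log_nonneg (by norm_num)
    have h6 : 0 ≤ Real.log (4 + 4 * (c * ((n + 2) * C))) := Real.log_nonneg (by
      have : (0 : ℝ) ≤ c * ((n + 2) * C) := by positivity
      linarith)
    positivity
  by_cases hL : Lgl D s
  swap
  · have h0 : dd n D.tau D.E u s = 0 := by
      funext i
      unfold dd
      exact if_neg hL
    refine ⟨Tx c X, (bd_Tx R X).mono ?_, ?_⟩
    · have : 0 ≤ (1 + 4 * ((n : ℝ) + 1)) * ε := by positivity
      linarith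
    · rw [h0]
      intro b
      rw [Matrix.mulVec_zero, Pi.zero_apply, abs_zero]
      exact zero_le_one
  -- the ratios
  have hpj0 : pj (fun j => (D.tau (s j) : ℝ)) 0 ≠ 0 := by
    refine Pool.TT37.pj_ne _ (fun j l h => hL.1 ?_) 0
    have h' : (D.tau (s j) : ℝ) = D.tau (s l) := h
    exact_mod_cast h'
  have hlam : ∀ j, |lmb D s j| ≤ 1 := by
    intro j
    unfold lmb
    rw [abs_div]
    exact div_le_one_of_le₀ (hL.2 j) (abs_nonneg _)
  have hlam0 : lmb D s 0 = 1 := by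
    unfold lmb
    exact div_self hpj0
  -- the weights
  obtain ⟨Ns, hNs⟩ : ∃ Ns : D.VV → Prop, Ns = fun v => ∀ l, D.adj (s l) v := ⟨_, rfl⟩
  obtain ⟨M, hM⟩ : ∃ M : ℝ, M = 2 ^ X * (C / 2 ^ (k * X)) ^ (n + 1 + 1) := ⟨_, rfl⟩
  have hM0 : 0 < M := by
    rw [hM]
    positivity
  obtain ⟨Q0, hQ0⟩ : ∃ Q0 : (Bool × Fin (n + 1 + 1) → D.VV) → ℝ,
    Q0 = P0 D.vp D.y Ns u (lmb D s) M := ⟨_, rfl⟩
  have hQn : ∀ W, 0 ≤ Q0 W := fun W => by
    rw [hQ0]
    exact P0_nn h.vp_nn hM0 W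
  obtain ⟨P, hP⟩ : ∃ P : (Bool × Fin (n + 1 + 1) → D.VV) → ℝ,
    P = fun W => if qq n C q / 2 ≤ D.cnT W then Q0 W else 0 := ⟨_, rfl⟩
  have hPn : ∀ W, 0 ≤ P W := fun W => by
    rw [hP]
    simp only
    split_ifs
    · exact hQn W
    · exact le_rfl
  have hPle : ∀ W, P W ≤ Q0 W := fun W => by
    rw [hP]
    simp only
    split_ifs
    · exact le_rfl
    · exact hQn W
  have hmg : ∀ v, (∑ W, if W (true, 0) = v then Q0 W else 0) ≤ D.vp v := by
    intro v
    rw [hQ0]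
    exact P0_mg h.vp_nn h.vp_le h.vp_sp h.y_r hM0 hM v
  have hQt : ∑ W, Q0 W ≤ 1 := by
    have e1 : ∑ W, Q0 W = ∑ v, ∑ W, (if W (true, 0) = v then Q0 W else 0) := by
      rw [Finset.sum_comm]
      refine Finset.sum_congr rfl fun W _ => ?_
      rw [Finset.sum_ite_eq Finset.univ (W (true, 0)) (fun _ => Q0 W),
        if_pos (Finset.mem_univ _)]
    rw [e1]
    exact (Finset.sum_le_sum fun v _ => hmg v).trans h.vp_le
  have hcn1 : ∀ W : Bool × Fin (n + 1 + 1) → D.VV, D.cnT W ≤ 1 := by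
    intro W
    refine le_trans ?_ h.mu_le
    unfold QD.cnT
    refine Finset.sum_le_sum fun t _ => ?_
    split_ifs
    · exact le_rfl
    · exact h.mu_nn t
  have htot : qq n C q / 2 ≤ ∑ W, P W := by
    have e1 := P0_tot (m := n + 1) (u := u) (lam := lmb D s) (Ns := Ns) (adj := D.adj)
      (X := X) (C := C) (M := M) (q := q) h.vp_nn h.mu_nn h.mu_le h.y_r hlam hlam0 hC0 hM hq.le
      (fun v => by
        refine (h.deg_V v).trans (le_of_eq ?_)
        unfold QD.cnT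
        refine Finset.sum_congr rfl fun t _ => ?_
        by_cases h1 : D.adj t v
        · exact (if_pos fun _ => h1).trans (if_pos h1).symm
        · exact (if_neg fun h2 => h1 (h2 ())).trans (if_neg h1).symm)
      (by
        refine hs.trans (le_of_eq ?_)
        unfold QD.cnV
        rw [hNs])
    rw [← hQ0] at e1
    have e2 : ∀ W, Q0 W * ∑ t, (if ∀ a, D.adj t (W a) then D.mu t else 0) ≤
        P W + qq n C q / 2 * Q0 W := by
      intro W
      have e3 : (∑ t, if ∀ a, D.adj t (W a) then D.mu t else 0) = D.cnT W := by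
        unfold QD.cnT
        refine Finset.sum_congr rfl fun t _ => ?_
        by_cases h1 : ∀ a, D.adj t (W a)
        · exact (if_pos h1).trans (if_pos h1).symm
        · exact (if_neg h1).trans (if_neg h1).symm
      rw [e3, hP]
      simp only
      split_ifs with h1
      · have h2 : Q0 W * D.cnT W ≤ Q0 W := mul_le_of_le_one_right (hQn W) (hcn1 W)
        have h3 : 0 ≤ qq n C q / 2 * Q0 W := mul_nonneg (by positivity) (hQn W)
        linarith
      · push Not at h1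
        have h2 : Q0 W * D.cnT W ≤ Q0 W * (qq n C q / 2) :=
          mul_le_mul_of_nonneg_left h1.le (hQn W)
        linarith
    have e4 := e1.trans (Finset.sum_le_sum fun W (_ : W ∈ Finset.univ) => e2 W)
    rw [Finset.sum_add_distrib, ← Finset.mul_sum] at e4
    have e5 : qq n C q ≤ ∑ W, P W + qq n C q / 2 * ∑ W, Q0 W := e4
    have e6 : qq n C q / 2 * ∑ W, Q0 W ≤ qq n C q / 2 * 1 :=
      mul_le_mul_of_nonneg_left hQt (by positivity)
    linarith
  have hWt : Wt D ((true, 0) : Bool × Fin (n + 1 + 1)) P ((2 : ℝ) ^ (-(ka' * X))) := by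
    refine ⟨hPn, fun v => ?_, hqq.trans htot, fun W hW => ?_⟩
    · refine le_trans (Finset.sum_le_sum fun W _ => ?_) (hmg v)
      split_ifs
      · exact hPle W
      · exact le_rfl
    · refine hqq.trans ?_
      rw [hP] at hW
      by_contra h1
      push Not at h1
      simp only [if_neg (not_le.2 h1)] at hW
      exact lt_irrefl _ hW
  obtain ⟨B, hB, hBW⟩ := hV (Bool × Fin (n + 1 + 1)) inferInstance inferInstance (true, 0) P hWt
  obtain ⟨r, hr⟩ : ∃ r : ℝ, r = (2 : ℝ) ^ (-(τ * X)) * (qq n C q / 2) := ⟨_, rfl⟩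
  have hr0 : 0 < r := by
    rw [hr]
    positivity
  obtain ⟨F, hF⟩ : ∃ F : (Fin (n + 1 + 1) → D.VV) → (Fin (n + 1 + 1) → D.VV) → ℝ,
    F = fun om b => if Kn D bs X B (jn om b) then P (jn om b) else 0 := ⟨_, rfl⟩
  have hFn : ∀ om b, 0 ≤ F om b := fun om b => by
    rw [hF]
    simp only
    split_ifs
    · exact hPn _
    · exact le_rfl
  have hFle : ∀ om b, F om b ≤ Q0 (jn om b) := fun om b => by
    rw [hF]
    simp only
    split_ifs
    · exact hPle _
    · exact hQn _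
  have hFt : r ≤ ∑ b, ∑ om, F om b := by
    have e1 : (2 : ℝ) ^ (-(τ * X)) * (qq n C q / 2) ≤ (2 : ℝ) ^ (-(τ * X)) * ∑ W, P W :=
      mul_le_mul_of_nonneg_left htot (by positivity)
    have e2 := e1.trans hBW
    rw [← hr, sum_W, Finset.sum_comm] at e2
    rw [hF]
    exact e2
  -- the choice of `b`
  obtain ⟨b, hb0, hb⟩ : ∃ b, 0 < w0 D.vp Ns b ∧ w0 D.vp Ns b * r ≤ ∑ om, F om b := by
    by_contra hcon
    push Not at hcon
    have e1 : ∀ b, ∑ om, F om b ≤ w0 D.vp Ns b * r := by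
      intro b
      rcases (w0_nn (Ns := Ns) h.vp_nn b).eq_or_lt with h0 | h0
      · rw [← h0, zero_mul]
        refine Finset.sum_nonpos fun om _ => (hFle om b).trans (le_of_eq ?_)
        rw [hQ0, P0_jn, ← h0, mul_zero, zero_div, ite_self]
      · exact (hcon b h0).le
    have e2 : ∃ b, ∑ om, F om b < w0 D.vp Ns b * r := by
      by_contra h2
      push Not at h2
      have h3 : ∀ b, ¬ 0 < w0 D.vp Ns b := fun b hb => absurd (hcon b hb) (not_lt.2 (h2 b))
      have h4 : ∑ b, ∑ om, F om b ≤ 0 := by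
        refine Finset.sum_nonpos fun b _ => (e1 b).trans ?_
        have h5 : w0 D.vp Ns b = 0 :=
          le_antisymm (not_lt.1 (h3 b)) (w0_nn h.vp_nn b)
        rw [h5, zero_mul]
      linarith
    obtain ⟨b1, hb1⟩ := e2
    have e3 : ∑ b, ∑ om, F om b < ∑ b, w0 D.vp Ns b * r :=
      Finset.sum_lt_sum (fun b _ => e1 b) ⟨b1, Finset.mem_univ _, hb1⟩
    rw [← Finset.sum_mul] at e3
    have e4 : (∑ b : Fin (n + 1 + 1) → D.VV, w0 D.vp Ns b) * r ≤ 1 * r :=
      mul_le_mul_of_nonneg_right (w0_tot h.vp_nn h.vp_le) hr0.le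
    linarith
  obtain ⟨Z, hZ⟩ : ∃ Z : ℝ, Z = ∑ om, F om b := ⟨_, rfl⟩
  have hZ0 : 0 < Z := by
    rw [hZ]
    exact lt_of_lt_of_le (mul_pos hb0 hr0) hb
  have hQl : IsLaw (fun om => F om b / Z) := by
    refine ⟨fun om => div_nonneg (hFn om b) hZ0.le, ?_⟩
    rw [← Finset.sum_div, ← hZ, div_self hZ0.ne']
  -- the support
  have hsup : ∀ om, 0 < F om b / Z → Kn D bs X B (jn om b) ∧
      (cel D.y u (lmb D s) (fun j => jn om b (true, j)) =
        cel D.y u (lmb D s) (fun j => jn om b (false, j))) ∧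
      ∀ l a, D.adj (s l) (jn om b a) := by
    intro om hom
    have h1 : 0 < F om b := by
      by_contra h2
      have h3 : F om b = 0 := le_antisymm (not_lt.1 h2) (hFn om b)
      rw [h3, zero_div] at hom
      exact lt_irrefl _ hom
    have h2 : Kn D bs X B (jn om b) := by
      by_contra h3
      rw [hF] at h1
      simp only [if_neg h3] at h1
      exact lt_irrefl _ h1
    have h3 : 0 < Q0 (jn om b) := lt_of_lt_of_le h1 (hFle om b)
    rw [hQ0] at h3
    have h4 := P0_supp h3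
    refine ⟨h2, h4.1, fun l a => ?_⟩
    have h5 := h4.2 a
    rw [hNs] at h5
    exact h5 l
  have key := Bd.add hp hQl hB (fun om => sgl D s (jn om b)) (dd n D.tau D.E u s)
    (fun om => Yl D u (jn om b)) (ε := (1 + 4 * (n + 1)) * ε)
    (κ := τ * X * Real.log 2 - Real.log (qq n C q / 2)) (a := a) (D := (n + 2) * C) ha
    (by positivity) (by positivity) hκ0
    (fun om _ => by
      have r1 := h.y_r (om 0) u
      have r2 := h.y_r (b 0) u
      have e : Yl D u (jn om b) = D.y (om 0) u - D.y (b 0) u := rfl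
      rw [e, abs_lt]
      constructor <;> linarith [r1.1, r1.2, r2.1, r2.2])
    (by
      have e1 : ∀ om, 0 < F om b / Z → law (fun om => F om b / Z) (fun om => Yl D u (jn om b))
          (Yl D u (jn om b)) ≤ 1 / (2 ^ X * r) := by
        intro om _
        unfold law
        have e2 : ∀ om', (@ite ℝ (Yl D u (jn om' b) = Yl D u (jn om b))
            (Classical.propDecidable _) (F om' b / Z) 0) ≤
            (if D.y (om' 0) u = D.y (om 0) u then Q0 (jn om' b) else 0) / Z := by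
          intro om'
          have e3 : (Yl D u (jn om' b) = Yl D u (jn om b)) ↔ D.y (om' 0) u = D.y (om 0) u := by
            have e4 : Yl D u (jn om' b) = D.y (om' 0) u - D.y (b 0) u := rfl
            have e5 : Yl D u (jn om b) = D.y (om 0) u - D.y (b 0) u := rfl
            rw [e4, e5, sub_left_inj]
          by_cases h1 : D.y (om' 0) u = D.y (om 0) u
          · rw [if_pos h1, if_pos (e3.2 h1)]
            exact div_le_div_of_nonneg_right (hFle om' b) hZ0.le
          · rw [if_neg h1, if_neg fun h2 => h1 (e3.1 h2), zero_div]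
        refine (Finset.sum_le_sum fun om' _ => e2 om').trans ?_
        rw [← Finset.sum_div, hQ0]
        have e6 := P0_fib (lam := lmb D s) (u := u) (Ns := Ns) h.vp_nn h.vp_sp hC0 hM b
          (D.y (om 0) u)
        refine (div_le_div_of_nonneg_right e6 hZ0.le).trans ?_
        have e7 : w0 D.vp Ns b * r ≤ Z := by
          rw [hZ]
          exact hb
        rw [div_le_div_iff₀ hZ0 (by positivity)]
        have e8 : w0 D.vp Ns b / 2 ^ X * (2 ^ X * r) = w0 D.vp Ns b * r := by field_simp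
        rw [e8]
        linarith
      have e9 := H_min hQl (fun om => Yl D u (jn om b)) e1
      refine le_trans (le_of_eq ?_) e9
      rw [one_div, Real.log_inv, neg_neg, Real.log_mul hX2.ne' hr0.ne', hr,
        Real.log_mul (by positivity) (by positivity), Real.log_pow, Real.log_rpow (by norm_num)]
      ring)
    (by
      have e1 := absb_fin hA hQl (ι := Fin (n + 1) × (Bool × Bool))
        (fun i om => D.g (s (tmi i.2.1 i.1)) (jn om b (i.2.2, i.1.succ)) -
          D.ref (s (tmi i.2.1 i.1)))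
        (fun i om hom => h.g_A _ _ ((hsup om hom).2.2 _ _)) (fun i => sgi i.2.1 i.2.2)
      rw [sgi_sum] at e1
      simp only [← sgl_eq] at e1
      exact e1)
    (fun om hom => hS hL B hB.det hB.inv (jn om b) (hsup om hom).2.2 (hsup om hom).2.1
      (hsup om hom).1)
    (fun i => dd_bd n D.tau D.E s (fun j u i => h.E_b _ _ _) u i)
  obtain ⟨S, hS1, -, hS3⟩ := key
  exact ⟨S, hS1, hS3⟩

/-- All vectors. -/
theorem all_dd {D : QD c k} {X : ℕ} {Ω : Type} [Fintype Ω] {p : Ω → ℝ} {R : Ω → Fin c → ℤ}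
    (hp : IsLaw p) {η : ℝ} (δ : Fin k → Fin c → ℝ) (h : ∀ u, ∃ S, Bd p R X η S ∧ InB S (δ u))
    (U : Finset (Fin k)) :
    ∃ S, Bd p R X (U.card * (η + Kp c)) S ∧ ∀ u ∈ U, InB S (δ u) := by
  classical
  induction U using Finset.induction_on with
  | empty =>
    refine ⟨Tx c X, (bd_Tx R X).mono ?_, fun u hu => absurd hu (Finset.notMem_empty u)⟩
    simp
  | insert a U ha ih =>
    obtain ⟨S1, h1, h2⟩ := ih
    obtain ⟨S2, h3, h4⟩ := h a
    obtain ⟨S, h5, h6, h7⟩ := Bd.pair hp h1 h3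
    refine ⟨S, h5.mono (le_of_eq ?_), fun u hu => ?_⟩
    · rw [Finset.card_insert_of_notMem ha]
      push_cast
      ring
    · rcases Finset.mem_insert.1 hu with rfl | hu
      · exact h7 _ h4
      · exact h6 _ (h2 u hu)

/-- The small axes lie in every body. -/
theorem inb_axis {B : Matrix (Fin c) (Fin c) ℝ} {X : ℕ} (h : ∀ i j, |B⁻¹ i j| ≤ 2 ^ X)
    (j : Fin c) : InB B (Pi.single j ((2 : ℝ) ^ X)⁻¹) := by
  intro b
  rw [Matrix.mulVec_single]
  simp only [Pi.smul_apply, MulOpposite.smul_eq_mul_unop, MulOpposite.unop_op,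
    Matrix.col_apply]
  rw [abs_mul, abs_of_pos (by positivity : (0 : ℝ) < ((2 : ℝ) ^ X)⁻¹), ← div_eq_mul_inv,
    div_le_one (by positivity)]
  exact h b j

/-- **FULL of degree `n` from (V) and (L2).** -/
theorem fullD_of (c k n : ℕ) (hV : VStmt c k n) (hS : SglStmt c k n) : FullD c k n := by
  classical
  intro C η hC hη
  have hC0 : 0 < C := by linarith
  have hl2 : 0 < Real.log 2 := Real.log_pos (by norm_num)
  have hl3 : Real.log 2 < (0.6931471808 : ℝ) := Real.log_two_lt_d9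
  have hk0 : (0 : ℝ) ≤ k := Nat.cast_nonneg k
  have hn0 : (0 : ℝ) ≤ n := Nat.cast_nonneg n
  obtain ⟨a, ha, hS⟩ := hS C hC
  obtain ⟨η1, hη1⟩ : ∃ η1 : ℝ, η1 = η / (2 * (k + 1)) := ⟨_, rfl⟩
  have hη10 : 0 < η1 := by
    rw [hη1]
    positivity
  have hkη : k * η1 ≤ η / 2 := by
    rw [hη1, mul_div_assoc', div_le_div_iff₀ (by positivity) (by norm_num)]
    nlinarith
  obtain ⟨ka', ε0', X0', hka', hε0', hV⟩ := hV C (η1 / 8) (η1 / 8) hC (by positivity)
    (by positivity)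
  obtain ⟨ka, hka⟩ : ∃ ka : ℝ, ka = min (ka' / (8 * (n + 2))) (η1 / (32 * (n + 2))) := ⟨_, rfl⟩
  have hka0 : 0 < ka := by
    rw [hka]
    positivity
  have hka1 : 8 * ((n : ℝ) + 2) * ka ≤ ka' := by
    have h1 : ka ≤ ka' / (8 * (n + 2)) := by
      rw [hka]
      exact min_le_left _ _
    rw [le_div_iff₀ (by positivity)] at h1
    linarith
  have hka2 : 4 * ((n : ℝ) + 2) * ka ≤ η1 / 8 := by
    have h1 : ka ≤ η1 / (32 * (n + 2)) := by
      rw [hka]
      exact min_le_right _ _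
    rw [le_div_iff₀ (by positivity)] at h1
    linarith
  obtain ⟨ε0, hε0⟩ : ∃ ε0 : ℝ, ε0 = min ε0' (η1 / (8 * (1 + 4 * (n + 1)))) := ⟨_, rfl⟩
  have hε00 : 0 < ε0 := by
    rw [hε0]
    positivity
  have hε1 : ε0 ≤ ε0' := by
    rw [hε0]
    exact min_le_left _ _
  have hε2 : (1 + 4 * ((n : ℝ) + 1)) * ε0 ≤ η1 / 8 := by
    have h1 : ε0 ≤ η1 / (8 * (1 + 4 * (n + 1))) := by
      rw [hε0]
      exact min_le_right _ _
    rw [le_div_iff₀ (by positivity)] at h1
    linarith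
  -- the constants
  obtain ⟨Kq, hKq⟩ : ∃ Kq : ℝ, Kq = 2 * (2 ^ (2 * (n + 1 + 1)) * (4 ^ (n + 1) * C ^ (n + 1 + 1))) :=
    ⟨_, rfl⟩
  have hKq0 : 0 < Kq := by
    rw [hKq]
    positivity
  obtain ⟨X1, hX1⟩ := ex_big (show 0 < ka' / 2 by positivity) Kq
  obtain ⟨K2, hK2⟩ : ∃ K2 : ℝ, K2 = |Real.log Kq| + |Ka c a ((n + 2) * C)| := ⟨_, rfl⟩
  obtain ⟨X2, hX2⟩ := exists_nat_ge (K2 / (η1 / 8))
  obtain ⟨K3, hK3⟩ : ∃ K3 : ℝ, K3 = k * |Kp c| + |Cc c c| := ⟨_, rfl⟩
  obtain ⟨X3, hX3⟩ := exists_nat_ge (K3 / (η / 2))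
  refine ⟨ka, ε0, max (max X0' X1) (max X2 X3), hka0, hε00, ?_⟩
  intro D bs X hX hD Ω _ p R hp hA s hs δ hδ hdet hinv
  have l0 : X0' ≤ X := (le_max_left _ _).trans ((le_max_left _ _).trans hX)
  have l1 : X1 ≤ X := (le_max_right _ _).trans ((le_max_left _ _).trans hX)
  have l2 : (X2 : ℝ) ≤ X := by
    exact_mod_cast (le_max_left _ _).trans ((le_max_right _ _).trans hX)
  have l3 : (X3 : ℝ) ≤ X := by
    exact_mod_cast (le_max_right _ _).trans ((le_max_right _ _).trans hX)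
  have hXR : (0 : ℝ) ≤ X := Nat.cast_nonneg X
  obtain ⟨q, hq⟩ : ∃ q : ℝ, q = (2 : ℝ) ^ (-(ka * X)) := ⟨_, rfl⟩
  have hq0 : 0 < q := by
    rw [hq]
    positivity
  have hq1 : q ≤ 1 := by
    rw [hq]
    apply Real.rpow_le_one_of_one_le_of_nonpos (by norm_num)
    have : 0 ≤ ka * X := by positivity
    linarith
  rw [← hq] at hD hs
  have hlq : Real.log q = -(ka * X) * Real.log 2 := by rw [hq, Real.log_rpow (by norm_num)]
  -- the total weight
  have hqq : qq n C q / 2 = (2 : ℝ) ^ (-(4 * ((n : ℝ) + 2) * ka * X)) / Kq := by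
    unfold qq
    rw [hKq, div_pow, ← pow_mul]
    have e1 : q ^ (2 * (2 * (n + 1 + 1))) = (2 : ℝ) ^ (-(4 * ((n : ℝ) + 2) * ka * X)) := by
      rw [hq, ← Real.rpow_natCast, ← Real.rpow_mul (by norm_num)]
      congr 1
      push_cast
      ring
    rw [e1]
    field_simp
  have hqq1 : (2 : ℝ) ^ (-(ka' * X)) ≤ qq n C q / 2 := by
    rw [hqq, le_div_iff₀ hKq0]
    have h1 := hX1 X l1
    calc (2 : ℝ) ^ (-(ka' * X)) * Kq ≤ (2 : ℝ) ^ (-(ka' * X)) * (2 : ℝ) ^ (ka' / 2 * X) :=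
          mul_le_mul_of_nonneg_left h1 (by positivity)
      _ = (2 : ℝ) ^ (-(ka' / 2 * X)) := by
          rw [← Real.rpow_add (by norm_num)]
          congr 1
          ring
      _ ≤ _ := by
          refine Real.rpow_le_rpow_of_exponent_le (by norm_num) ?_
          have h2 : 4 * ((n : ℝ) + 2) * ka * X ≤ ka' / 2 * X :=
            mul_le_mul_of_nonneg_right (by linarith) hXR
          linarith
  have hlqq : -Real.log (qq n C q / 2) ≤ η1 / 8 * X + |Real.log Kq| := by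
    rw [hqq, Real.log_div (by positivity) hKq0.ne', Real.log_rpow (by norm_num)]
    have h1 := le_abs_self (Real.log Kq)
    have h2 : 4 * ((n : ℝ) + 2) * ka * X ≤ η1 / 8 * X := mul_le_mul_of_nonneg_right hka2 hXR
    have h3 : 0 ≤ 4 * ((n : ℝ) + 2) * ka * X := by positivity
    nlinarith
  have hkale : (2 : ℝ) ^ (-(ka' * X)) ≤ q := by
    rw [hq]
    refine Real.rpow_le_rpow_of_exponent_le (by norm_num) ?_
    have h1 : ka ≤ ka' := by nlinarith
    have := mul_le_mul_of_nonneg_right h1 hXR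
    linarith
  have hA' : Absb p R D.A (ε0' * X) := by
    intro Γ _ q hq m x hx s
    refine (hA Γ inferInstance q hq m x hx s).trans ?_
    have h1 : (1 + ∑ i, |(s i : ℝ)|) * (ε0 * X) ≤ (1 + ∑ i, |(s i : ℝ)|) * (ε0' * X) := by
      refine mul_le_mul_of_nonneg_left (mul_le_mul_of_nonneg_right hε1 hXR) ?_
      have : 0 ≤ ∑ i, |(s i : ℝ)| := Finset.sum_nonneg fun i _ => abs_nonneg _
      linarith
    linarith
  have hVD := hV D bs X l0 (okG_mono hD hkale) Ω inferInstance p R hp hA'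
  have hone : ∀ u, ∃ S, Bd p R X (η1 * X) S ∧ InB S (dd n D.tau D.E u s) := by
    intro u
    obtain ⟨S, h1, h2⟩ := one_dd hD hC hq0 hq1 hp (ε := ε0 * X) (by positivity) hA hs u
      (ka' := ka') (η := η1 / 8 * X) (τ := η1 / 8) (a := a) (by positivity) (by positivity) ha hqq1
      hVD (fun hL B hB hBi W hW hc hK => hS D bs X q hD s u hL B hB hBi W hW hc hK)
    refine ⟨S, h1.mono ?_, h2⟩
    have e1 : (1 + 4 * ((n : ℝ) + 1)) * (ε0 * X) ≤ η1 / 8 * X := by
      rw [← mul_assoc]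
      exact mul_le_mul_of_nonneg_right hε2 hXR
    have e2 : η1 / 8 * X * Real.log 2 ≤ η1 / 8 * X := by
      have : 0 ≤ η1 / 8 * X := by positivity
      nlinarith
    have e3 : K2 ≤ η1 / 8 * X := by
      have := hX2.trans l2
      rw [div_le_iff₀ (by positivity)] at this
      linarith
    have e4 := le_abs_self (Ka c a ((n + 2) * C))
    rw [hK2] at e3
    have e5 : 0 ≤ η1 / 8 * X := by positivity
    linarith
  obtain ⟨S, hS1, hS2⟩ := all_dd (D := D) hp (fun u => dd n D.tau D.E u s) hone Finset.univ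
  have h3 := Bd.sub hp hS1 δ hdet (fun b => by
    rcases hδ b with ⟨u, hu⟩ | ⟨i, hi⟩
    · rw [hu]
      exact hS2 u (Finset.mem_univ u)
    · rw [hi]
      exact inb_axis hS1.inv i)
  have hT : (((2 : ℝ) ^ X)⁻¹ • (1 : Matrix (Fin c) (Fin c) ℝ)) = Tx c X := by
    unfold Tx
    rw [← Matrix.diagonal_one, ← Matrix.diagonal_smul]
    congr 1
    funext i
    simp
  rw [hT]
  refine h3.trans ?_
  rw [Finset.card_univ, Fintype.card_fin]
  have e1 : K3 ≤ η / 2 * X := by
    have := hX3.trans l3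
    rw [div_le_iff₀ (by positivity)] at this
    linarith
  rw [hK3] at e1
  have e2 : (k : ℝ) * Kp c ≤ k * |Kp c| := mul_le_mul_of_nonneg_left (le_abs_self _) hk0
  have e3 := le_abs_self (Cc c (c : ℝ))
  have e4 := mul_le_mul_of_nonneg_right hkη hXR
  have e5 : (k : ℝ) * (η1 * X + Kp c) = k * η1 * X + k * Kp c := by ring
  rw [e5]
  have e6 : Ph p (xx R X) (Tx c X) = Ph p (fun ω i => (R ω i : ℝ) / 2 ^ X) (Tx c X) := rfl
  rw [← e6]
  linarith

end Pool.BD64
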