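import Pool.Agent.H21.BD.Ld

/-!
# The last step: weights on pairs of tuples in one cell

`cell_mass`: the weight of one cell. `cell_card`: the number of cells. `cs_cell`: pairs of tuples in
one cell. `P0`: the weights; `P0_mg`, `P0_tot`, `P0_fib`.
-/

set_option autoImplicit false
set_option linter.unusedSectionVars false

namespace Pool.BD64

open Finset Real
open Pool.QC (QD)

variable {k : ℕ}

/-- Pairs of elements with the same value. -/
theorem cs_cell {α β : Type} [Fintype α] [DecidableEq β] (Zs : Finset β) (f : α → β)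
    (hf : ∀ a, f a ∈ Zs) (w : α → ℝ) :
    (∑ a, w a) ^ 2 ≤ Zs.card * ∑ a, ∑ b, (if f a = f b then w a * w b else 0) := by
  obtain ⟨S, hS⟩ : ∃ S : β → ℝ, S = fun z => ∑ a, if f a = z then w a else 0 := ⟨_, rfl⟩
  have h1 : ∑ z ∈ Zs, S z = ∑ a, w a := by
    rw [hS, Finset.sum_comm]
    refine Finset.sum_congr rfl fun a _ => ?_
    rw [Finset.sum_ite_eq Zs (f a) (fun _ => w a), if_pos (hf a)]
  have h2 : ∑ z ∈ Zs, S z ^ 2 = ∑ a, ∑ b, (if f a = f b then w a * w b else 0) := by
    have e1 : ∀ z, S z ^ 2 = ∑ a, ∑ b, (if f a = z then (if f a = f b then w a * w b else 0)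
        else 0) := by
      intro z
      rw [hS, sq, Finset.sum_mul_sum]
      refine Finset.sum_congr rfl fun a _ => Finset.sum_congr rfl fun b _ => ?_
      by_cases ha : f a = z
      · rw [if_pos ha, if_pos ha, ha]
        by_cases hb : f b = z
        · rw [if_pos hb, if_pos hb.symm]
        · rw [if_neg hb, if_neg (Ne.symm hb), mul_zero]
      · rw [if_neg ha, if_neg ha, zero_mul]
    rw [Finset.sum_congr rfl fun z _ => e1 z, Finset.sum_comm]
    refine Finset.sum_congr rfl fun a _ => ?_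
    rw [Finset.sum_comm]
    refine Finset.sum_congr rfl fun b _ => ?_
    rw [Finset.sum_ite_eq Zs (f a) (fun _ => if f a = f b then w a * w b else 0), if_pos (hf a)]
  have h3 := sq_sum_le_card_mul_sum_sq (s := Zs) (f := S)
  rw [h1, h2] at h3
  exact h3

section cells

variable {V : Type} [Fintype V] {vp : V → ℝ} {y : V → Fin k → ℤ} {X m : ℕ} {C : ℝ} {u : Fin k}
  {lam : Fin (m + 1) → ℝ}

open Classical in
/-- The tuples of one cell with a given value. -/
theorem cell_fib (hvp : ∀ v, 0 ≤ vp v)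
    (hsp : ∀ a : Fin k → ℤ, (∑ v, if y v = a then vp v else 0) ≤ C / 2 ^ (k * X))
    (z : (Fin (m + 1) → Fin k → ℤ) × (Fin (m + 1) → ℤ)) (a : ℤ) :
    (∑ om : Fin (m + 1) → V, if y (om 0) u = a ∧ cel y u lam om = z then ∏ j, vp (om j) else 0) ≤
      (C / 2 ^ (k * X)) ^ (m + 1) := by
  obtain ⟨Yf, hYf⟩ : ∃ Yf : Fin (m + 1) → Fin k → ℤ, Yf = fun j i =>
    if i = u then z.2 j + ⌈lam j * a⌉ else z.1 j i := ⟨_, rfl⟩
  have h1 : ∀ om : Fin (m + 1) → V, (if y (om 0) u = a ∧ cel y u lam om = z then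
      ∏ j, vp (om j) else 0) ≤ ∏ j, (if y (om j) = Yf j then vp (om j) else 0) := by
    intro om
    by_cases h : y (om 0) u = a ∧ cel y u lam om = z
    · rw [if_pos h]
      refine le_of_eq (Finset.prod_congr rfl fun j _ => ?_)
      rw [if_pos]
      funext i
      rw [hYf]
      simp only
      split_ifs with hi
      · subst hi
        have e1 : ⌊(y (om j) i : ℝ) - lam j * (y (om 0) i : ℝ)⌋ = z.2 j :=
          congrFun (Prod.ext_iff.1 h.2).2 j
        rw [h.1, sub_eq_add_neg, Int.floor_intCast_add, Int.floor_neg] at e1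
        linarith
      · have e1 : (if i = u then 0 else y (om j) i) = z.1 j i :=
          congrFun (congrFun (Prod.ext_iff.1 h.2).1 j) i
        rw [if_neg hi] at e1
        exact e1
    · rw [if_neg h]
      refine Finset.prod_nonneg fun j _ => ?_
      split_ifs
      · exact hvp _
      · exact le_rfl
  refine (Finset.sum_le_sum fun om _ => h1 om).trans ?_
  have h2 : ∑ om : Fin (m + 1) → V, ∏ j, (if y (om j) = Yf j then vp (om j) else 0) =
      ∏ j, ∑ v, (if y v = Yf j then vp v else 0) := by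
    rw [Finset.prod_univ_sum, Fintype.piFinset_univ]
  rw [h2]
  refine (Finset.prod_le_prod (fun j _ => Finset.sum_nonneg fun v _ => ?_)
    fun j _ => hsp (Yf j)).trans (le_of_eq ?_)
  · split_ifs
    · exact hvp _
    · exact le_rfl
  · rw [Finset.prod_const, Finset.card_univ, Fintype.card_fin]

theorem two_toNat (X : ℕ) : ((((2 : ℤ) ^ X).toNat : ℕ) : ℝ) = 2 ^ X := by
  rw [show ((2 : ℤ) ^ X).toNat = 2 ^ X from by
    rw [show ((2 : ℤ) ^ X) = ((2 ^ X : ℕ) : ℤ) by simp, Int.toNat_natCast]]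
  push_cast
  rfl

open Classical in
/-- The weight of one cell. -/
theorem cell_mass (hvp : ∀ v, 0 ≤ vp v)
    (hsp : ∀ a : Fin k → ℤ, (∑ v, if y v = a then vp v else 0) ≤ C / 2 ^ (k * X))
    (hy : ∀ v j, 0 ≤ y v j ∧ y v j < 2 ^ X)
    (z : (Fin (m + 1) → Fin k → ℤ) × (Fin (m + 1) → ℤ)) :
    (∑ om : Fin (m + 1) → V, if cel y u lam om = z then ∏ j, vp (om j) else 0) ≤
      2 ^ X * (C / 2 ^ (k * X)) ^ (m + 1) := by
  have h1 : ∀ om : Fin (m + 1) → V, (if cel y u lam om = z then ∏ j, vp (om j) else 0) =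
      ∑ a ∈ Finset.Ico (0 : ℤ) (2 ^ X), (if y (om 0) u = a ∧ cel y u lam om = z then
        ∏ j, vp (om j) else 0) := by
    intro om
    by_cases h : cel y u lam om = z
    · rw [if_pos h]
      have e1 : ∀ a ∈ Finset.Ico (0 : ℤ) (2 ^ X), (if y (om 0) u = a ∧ cel y u lam om = z then
          ∏ j, vp (om j) else 0) = if y (om 0) u = a then ∏ j, vp (om j) else 0 := by
        intro a _
        by_cases h2 : y (om 0) u = a
        · rw [if_pos ⟨h2, h⟩, if_pos h2]
        · rw [if_neg fun h3 => h2 h3.1, if_neg h2]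
      rw [Finset.sum_congr rfl e1, Finset.sum_ite_eq, if_pos]
      rw [Finset.mem_Ico]
      exact hy _ _
    · rw [if_neg h]
      refine (Finset.sum_eq_zero fun a _ => ?_).symm
      exact if_neg fun h3 => h h3.2
  rw [Finset.sum_congr rfl fun om _ => h1 om, Finset.sum_comm]
  refine (Finset.sum_le_sum fun a _ => cell_fib hvp hsp z a).trans (le_of_eq ?_)
  rw [Finset.sum_const, Int.card_Ico, sub_zero, nsmul_eq_mul, two_toNat]

open Classical in
/-- The number of the cells. -/
theorem cell_card (hy : ∀ v j, 0 ≤ y v j ∧ y v j < 2 ^ X) (hlam : ∀ j, |lam j| ≤ 1)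
    (hlam0 : lam 0 = 1) : ∃ Zs : Finset ((Fin (m + 1) → Fin k → ℤ) × (Fin (m + 1) → ℤ)),
      (∀ om : Fin (m + 1) → V, cel y u lam om ∈ Zs) ∧
      (Zs.card : ℝ) * 2 ^ X = 4 ^ m * (2 ^ (k * X)) ^ (m + 1) := by
  obtain ⟨A, hA⟩ : ∃ A : Fin k → Finset ℤ, A = fun i => if i = u then {0} else
    Finset.Ico (0 : ℤ) (2 ^ X) := ⟨_, rfl⟩
  obtain ⟨B, hB⟩ : ∃ B : Fin (m + 1) → Finset ℤ, B = fun j => if j = 0 then {0} else
    Finset.Ico (-(2 * 2 ^ X) : ℤ) (2 * 2 ^ X) := ⟨_, rfl⟩
  refine ⟨(Fintype.piFinset fun _ => Fintype.piFinset A) ×ˢ Fintype.piFinset B, fun om => ?_, ?_⟩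
  · rw [Finset.mem_product]
    constructor
    · rw [Fintype.mem_piFinset]
      intro j
      rw [Fintype.mem_piFinset]
      intro i
      show (if i = u then 0 else y (om j) i) ∈ A i
      rw [hA]
      simp only
      split_ifs with h
      · exact Finset.mem_singleton_self _
      · rw [Finset.mem_Ico]
        exact hy _ _
    · rw [Fintype.mem_piFinset]
      intro j
      show ⌊(y (om j) u : ℝ) - lam j * (y (om 0) u : ℝ)⌋ ∈ B j
      rw [hB]
      simp only
      split_ifs with h
      · rw [h, hlam0, one_mul, sub_self, Int.floor_zero]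
        exact Finset.mem_singleton_self _
      · have hX : (0 : ℝ) < 2 ^ X := by positivity
        have a1 := hy (om j) u
        have a2 := hy (om 0) u
        have b1 : (0 : ℝ) ≤ y (om j) u := by exact_mod_cast a1.1
        have b2 : (y (om j) u : ℝ) < 2 ^ X := by exact_mod_cast a1.2
        have b3 : (0 : ℝ) ≤ y (om 0) u := by exact_mod_cast a2.1
        have b4 : (y (om 0) u : ℝ) < 2 ^ X := by exact_mod_cast a2.2
        have b5 : |lam j * (y (om 0) u : ℝ)| ≤ 2 ^ X := by
          rw [abs_mul, abs_of_nonneg b3]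
          calc |lam j| * (y (om 0) u : ℝ) ≤ 1 * 2 ^ X :=
                mul_le_mul (hlam j) b4.le b3 zero_le_one
            _ = 2 ^ X := one_mul _
        rw [abs_le] at b5
        rw [Finset.mem_Ico]
        constructor
        · refine Int.le_floor.2 ?_
          push_cast
          linarith [b5.1, b5.2]
        · refine Int.floor_lt.2 ?_
          push_cast
          linarith [b5.1, b5.2]
  · rw [Finset.card_product, Fintype.card_piFinset, Finset.prod_const, Fintype.card_piFinset,
      Fintype.card_piFinset, Finset.card_univ, Fintype.card_fin, Fin.prod_univ_succ]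
    have e1 : (∏ i, (A i).card : ℕ) * 2 ^ X = 2 ^ (k * X) := by
      have e2 : ∀ i, (A i).card * (if i = u then 2 ^ X else 1) = 2 ^ X := by
        intro i
        rw [hA]
        simp only
        split_ifs
        · rw [Finset.card_singleton, one_mul]
        · rw [Int.card_Ico, sub_zero, mul_one]
          rw [show ((2 : ℤ) ^ X) = ((2 ^ X : ℕ) : ℤ) by simp, Int.toNat_natCast]
      have e3 : (∏ i, (A i).card : ℕ) * ∏ i, (if i = u then 2 ^ X else 1) = ∏ _i : Fin k, 2 ^ X := by
        rw [← Finset.prod_mul_distrib]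
        exact Finset.prod_congr rfl fun i _ => e2 i
      rw [Finset.prod_ite_eq' Finset.univ u (fun _ => 2 ^ X), if_pos (Finset.mem_univ u),
        Finset.prod_const, Finset.card_univ, Fintype.card_fin] at e3
      rw [e3, ← pow_mul, mul_comm]
    have e4 : (B 0).card = 1 := by
      rw [hB]
      simp
    have e5 : ∏ i : Fin m, (B i.succ).card = (4 * 2 ^ X) ^ m := by
      have e6 : ∀ i : Fin m, (B i.succ).card = 4 * 2 ^ X := by
        intro i
        rw [hB]
        simp only
        rw [if_neg (Fin.succ_ne_zero i), Int.card_Ico]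
        have : (2 * 2 ^ X - -(2 * 2 ^ X) : ℤ) = ((4 * 2 ^ X : ℕ) : ℤ) := by
          push_cast
          ring
        rw [this, Int.toNat_natCast]
      rw [Finset.prod_congr rfl fun i _ => e6 i, Finset.prod_const, Finset.card_univ,
        Fintype.card_fin]
    rw [e4, e5, one_mul]
    have e7 : ((∏ i, (A i).card : ℕ) : ℝ) * 2 ^ X = 2 ^ (k * X) := by exact_mod_cast e1
    rw [← e7]
    push_cast
    ring

end cells

/-! ### The weights -/

section wt

variable {V T : Type} [Fintype V] [Fintype T]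

/-- The union of two tuples. -/
def jn {m : ℕ} (om b : Fin (m + 1) → V) (a : Bool × Fin (m + 1)) : V :=
  if a.1 = true then om a.2 else b a.2

/-- Pairs of tuples. -/
def eqW (V : Type) (m : ℕ) : ((Fin (m + 1) → V) × (Fin (m + 1) → V)) ≃
    (Bool × Fin (m + 1) → V) where
  toFun z := jn z.1 z.2
  invFun W := (fun j => W (true, j), fun j => W (false, j))
  left_inv z := rfl
  right_inv W := by
    funext ⟨b, j⟩
    cases b <;> rfl

theorem sum_W {m : ℕ} (F : (Bool × Fin (m + 1) → V) → ℝ) :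
    ∑ W, F W = ∑ om, ∑ b, F (jn om b) := by
  classical
  rw [← Fintype.sum_prod_type (f := fun z : (Fin (m + 1) → V) × (Fin (m + 1) → V) =>
    F (jn z.1 z.2))]
  exact (Fintype.sum_equiv (eqW V m) _ _ fun z => rfl).symm

open Classical in
/-- The weight of a tuple with entries in `Ns`. -/
noncomputable def w0 (vp : V → ℝ) (Ns : V → Prop) {m : ℕ} (om : Fin (m + 1) → V) : ℝ :=
  ∏ j, if Ns (om j) then vp (om j) else 0

open Classical in
/-- The weights. -/
noncomputable def P0 (vp : V → ℝ) (y : V → Fin k → ℤ) (Ns : V → Prop) (u : Fin k) {m : ℕ}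
    (lam : Fin (m + 1) → ℝ) (M : ℝ) (W : Bool × Fin (m + 1) → V) : ℝ :=
  if cel y u lam (fun j => W (true, j)) = cel y u lam (fun j => W (false, j)) then
    w0 vp Ns (fun j => W (true, j)) * w0 vp Ns (fun j => W (false, j)) / M else 0

variable {vp : V → ℝ} {mu : T → ℝ} {y : V → Fin k → ℤ} {X m : ℕ} {C M : ℝ} {u : Fin k}
  {lam : Fin (m + 1) → ℝ} {Ns : V → Prop} {adj : T → V → Prop}

theorem w0_nn (hvp : ∀ v, 0 ≤ vp v) (om : Fin (m + 1) → V) : 0 ≤ w0 vp Ns om := by
  classical
  refine Finset.prod_nonneg fun j _ => ?_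
  split_ifs
  · exact hvp _
  · exact le_rfl

theorem w0_le (hvp : ∀ v, 0 ≤ vp v) (om : Fin (m + 1) → V) : w0 vp Ns om ≤ ∏ j, vp (om j) := by
  classical
  refine Finset.prod_le_prod (fun j _ => ?_) fun j _ => ?_
  · split_ifs
    · exact hvp _
    · exact le_rfl
  · split_ifs
    · exact le_rfl
    · exact hvp _

theorem w0_sum : ∑ om : Fin (m + 1) → V, w0 vp Ns om =
    (∑ v, open Classical in (if Ns v then vp v else 0)) ^ (m + 1) := by
  classical
  unfold w0
  rw [show (∑ v, if Ns v then vp v else 0) ^ (m + 1) =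
    ∏ _j : Fin (m + 1), ∑ v, (if Ns v then vp v else 0) by
      rw [Finset.prod_const, Finset.card_univ, Fintype.card_fin]]
  rw [Finset.prod_univ_sum, Fintype.piFinset_univ]

theorem w0_tot (hvp : ∀ v, 0 ≤ vp v) (hv1 : ∑ v, vp v ≤ 1) :
    ∑ om : Fin (m + 1) → V, w0 vp Ns om ≤ 1 := by
  classical
  rw [w0_sum]
  have h1 : (∑ v, if Ns v then vp v else 0) ≤ 1 := by
    refine le_trans (Finset.sum_le_sum fun v _ => ?_) hv1
    split_ifs
    · exact le_rfl
    · exact hvp v
  have h0 : 0 ≤ (∑ v, if Ns v then vp v else 0) := Finset.sum_nonneg fun v _ => by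
    split_ifs
    · exact hvp v
    · exact le_rfl
  exact pow_le_one₀ h0 h1

theorem P0_nn (hvp : ∀ v, 0 ≤ vp v) (hM : 0 < M) (W : Bool × Fin (m + 1) → V) :
    0 ≤ P0 vp y Ns u lam M W := by
  classical
  unfold P0
  split_ifs
  · exact div_nonneg (mul_nonneg (w0_nn hvp _) (w0_nn hvp _)) hM.le
  · exact le_rfl

theorem P0_supp {W : Bool × Fin (m + 1) → V}
    (h : 0 < P0 vp y Ns u lam M W) :
    cel y u lam (fun j => W (true, j)) = cel y u lam (fun j => W (false, j)) ∧
      ∀ a, Ns (W a) := by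
  classical
  unfold P0 at h
  by_cases h1 : cel y u lam (fun j => W (true, j)) = cel y u lam (fun j => W (false, j))
  · rw [if_pos h1] at h
    refine ⟨h1, ?_⟩
    have h2 : w0 vp Ns (fun j => W (true, j)) * w0 vp Ns (fun j => W (false, j)) ≠ 0 := by
      intro h3
      rw [h3, zero_div] at h
      exact lt_irrefl _ h
    have key : ∀ om : Fin (m + 1) → V, w0 vp Ns om ≠ 0 → ∀ j, Ns (om j) := by
      intro om hom j
      unfold w0 at hom
      rw [Finset.prod_ne_zero_iff] at hom
      by_contra h4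
      exact hom j (Finset.mem_univ j) (if_neg h4)
    rintro ⟨b, j⟩
    cases b
    · exact key _ (right_ne_zero_of_mul h2) j
    · exact key _ (left_ne_zero_of_mul h2) j
  · rw [if_neg h1] at h
    exact absurd h (lt_irrefl _)

theorem P0_jn (om b : Fin (m + 1) → V) : P0 vp y Ns u lam M (jn om b) =
    open Classical in (if cel y u lam om = cel y u lam b then w0 vp Ns om * w0 vp Ns b / M
      else 0) := rfl

open Classical in
/-- The marginal. -/
theorem P0_mg (hvp : ∀ v, 0 ≤ vp v) (hv1 : ∑ v, vp v ≤ 1)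
    (hsp : ∀ a : Fin k → ℤ, (∑ v, if y v = a then vp v else 0) ≤ C / 2 ^ (k * X))
    (hy : ∀ v j, 0 ≤ y v j ∧ y v j < 2 ^ X) (hM : 0 < M)
    (hMv : M = 2 ^ X * (C / 2 ^ (k * X)) ^ (m + 1)) (v : V) :
    (∑ W : Bool × Fin (m + 1) → V, if W (true, 0) = v then P0 vp y Ns u lam M W else 0) ≤
      vp v := by
  rw [sum_W]
  have h1 : ∀ om : Fin (m + 1) → V, (∑ b, if (jn om b) (true, 0) = v then
      P0 vp y Ns u lam M (jn om b) else 0) ≤ if om 0 = v then ∏ j, vp (om j) else 0 := by
    intro om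
    by_cases h : om 0 = v
    · rw [if_pos h]
      have e1 : ∀ b : Fin (m + 1) → V, (if (jn om b) (true, 0) = v then
          P0 vp y Ns u lam M (jn om b) else 0) ≤
          w0 vp Ns om / M * (if cel y u lam b = cel y u lam om then ∏ j, vp (b j) else 0) := by
        intro b
        rw [if_pos (show (jn om b) (true, 0) = v from h), P0_jn]
        by_cases h2 : cel y u lam om = cel y u lam b
        · rw [if_pos h2, if_pos h2.symm, mul_div_right_comm]
          exact mul_le_mul_of_nonneg_left (w0_le hvp b) (div_nonneg (w0_nn hvp om) hM.le)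
        · rw [if_neg h2, if_neg (Ne.symm h2), mul_zero]
      refine (Finset.sum_le_sum fun b _ => e1 b).trans ?_
      rw [← Finset.mul_sum]
      have e2 := cell_mass (lam := lam) (u := u) hvp hsp hy (cel y u lam om)
      rw [← hMv] at e2
      calc w0 vp Ns om / M * ∑ b, (if cel y u lam b = cel y u lam om then ∏ j, vp (b j) else 0) ≤
            w0 vp Ns om / M * M :=
            mul_le_mul_of_nonneg_left e2 (div_nonneg (w0_nn hvp om) hM.le)
        _ = w0 vp Ns om := by field_simp
        _ ≤ _ := w0_le hvp om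
    · rw [if_neg h]
      refine Finset.sum_nonpos fun b _ => ?_
      rw [if_neg (show ¬ (jn om b) (true, 0) = v from h)]
  refine (Finset.sum_le_sum fun om _ => h1 om).trans ?_
  have h2 : ∀ om : Fin (m + 1) → V, (if om 0 = v then ∏ j, vp (om j) else 0) =
      ∏ j, (if j = 0 then (if om j = v then vp (om j) else 0) else vp (om j)) := by
    intro om
    rw [Fin.prod_univ_succ, Fin.prod_univ_succ, if_pos rfl]
    have e1 : ∀ j : Fin m, (if (j.succ : Fin (m + 1)) = 0 then (if om j.succ = v then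
        vp (om j.succ) else 0) else vp (om j.succ)) = vp (om j.succ) := fun j =>
      if_neg (Fin.succ_ne_zero j)
    rw [Finset.prod_congr rfl fun j _ => e1 j]
    split_ifs
    · rfl
    · rw [zero_mul]
  rw [Finset.sum_congr rfl fun om _ => h2 om]
  have h3 : ∑ om : Fin (m + 1) → V, ∏ j, (if j = 0 then (if om j = v then vp (om j) else 0)
      else vp (om j)) = ∏ j : Fin (m + 1), ∑ v', (if j = 0 then (if v' = v then vp v' else 0)
      else vp v') := by
    rw [Finset.prod_univ_sum, Fintype.piFinset_univ]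
  rw [h3, Fin.prod_univ_succ]
  have h4 : (∑ v', if (0 : Fin (m + 1)) = 0 then (if v' = v then vp v' else 0) else vp v') =
      vp v := by
    have e1 : ∀ v', (if (0 : Fin (m + 1)) = 0 then (if v' = v then vp v' else 0) else vp v') =
        if v' = v then vp v' else 0 := fun v' => if_pos rfl
    rw [Finset.sum_congr rfl fun v' _ => e1 v', Finset.sum_ite_eq' Finset.univ v vp,
      if_pos (Finset.mem_univ v)]
  have h5 : ∏ j : Fin m, (∑ v', if (j.succ : Fin (m + 1)) = 0 then (if v' = v then vp v' else 0)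
      else vp v') ≤ 1 := by
    refine Finset.prod_le_one (fun j _ => ?_) fun j _ => ?_
    · refine Finset.sum_nonneg fun v' _ => ?_
      rw [if_neg (Fin.succ_ne_zero j)]
      exact hvp v'
    · refine le_trans (le_of_eq (Finset.sum_congr rfl fun v' _ => ?_)) hv1
      exact if_neg (Fin.succ_ne_zero j)
  rw [h4]
  exact mul_le_of_le_one_right (hvp v) h5

/-- A power mean. -/
theorem jen (hmu : ∀ t, 0 ≤ mu t) (hmu1 : ∑ t, mu t ≤ 1) {f : T → ℝ} (hf : ∀ t, 0 ≤ f t)
    {a : ℝ} (ha : 0 ≤ a) (h : 2 * a ≤ ∑ t, mu t * f t) (K : ℕ) :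
    a ^ (K + 1) ≤ ∑ t, mu t * f t ^ (K + 1) := by
  have h1 : ∀ t, a ^ K * (mu t * f t - mu t * a) ≤ mu t * f t ^ (K + 1) := by
    intro t
    have e1 : a ^ K * (mu t * f t - mu t * a) = mu t * (a ^ K * (f t - a)) := by ring
    rw [e1]
    refine mul_le_mul_of_nonneg_left ?_ (hmu t)
    have hK : 0 ≤ a ^ K := by positivity
    rcases le_total a (f t) with h2 | h2
    · have h3 : a ^ K ≤ f t ^ K := pow_le_pow_left₀ ha h2 K
      rw [pow_succ]
      have h4 : 0 ≤ f t := hf t
      nlinarith
    · have h3 : 0 ≤ f t ^ (K + 1) := pow_nonneg (hf t) _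
      nlinarith
  have h2 := Finset.sum_le_sum fun t (_ : t ∈ Finset.univ) => h1 t
  rw [← Finset.mul_sum, Finset.sum_sub_distrib, ← Finset.sum_mul] at h2
  refine le_trans ?_ h2
  rw [pow_succ]
  refine mul_le_mul_of_nonneg_left ?_ (by positivity)
  nlinarith

open Classical in
/-- The total weight of the tuples with common neighbours. -/
theorem P0_tot (hvp : ∀ v, 0 ≤ vp v) (hmu : ∀ t, 0 ≤ mu t) (hmu1 : ∑ t, mu t ≤ 1)
    (hy : ∀ v j, 0 ≤ y v j ∧ y v j < 2 ^ X) (hlam : ∀ j, |lam j| ≤ 1) (hlam0 : lam 0 = 1)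
    (hC : 0 < C) (hMv : M = 2 ^ X * (C / 2 ^ (k * X)) ^ (m + 1)) {q : ℝ} (hq : 0 ≤ q)
    (hdeg : ∀ v, q ≤ ∑ t, if adj t v then mu t else 0)
    (hNs : q ≤ ∑ v, if Ns v then vp v else 0) :
    (q ^ 2 / 2) ^ (2 * (m + 1)) / (4 ^ m * C ^ (m + 1)) ≤
      ∑ W : Bool × Fin (m + 1) → V, P0 vp y Ns u lam M W *
        ∑ t, (if ∀ a, adj t (W a) then mu t else 0) := by
  have hM : 0 < M := by
    rw [hMv]
    positivity
  obtain ⟨Nt, hNt⟩ : ∃ Nt : T → V → Prop, Nt = fun t v => Ns v ∧ adj t v := ⟨_, rfl⟩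
  obtain ⟨f, hf⟩ : ∃ f : T → ℝ, f = fun t => ∑ v, if Nt t v then vp v else 0 := ⟨_, rfl⟩
  have hf0 : ∀ t, 0 ≤ f t := fun t => by
    rw [hf]
    refine Finset.sum_nonneg fun v _ => ?_
    split_ifs
    · exact hvp v
    · exact le_rfl
  -- the first moment
  have h1 : q ^ 2 ≤ ∑ t, mu t * f t := by
    have e1 : ∑ t, mu t * f t = ∑ v, (if Ns v then vp v else 0) *
        ∑ t, (if adj t v then mu t else 0) := by
      rw [hf]
      simp only [Finset.mul_sum]
      rw [Finset.sum_comm]
      refine Finset.sum_congr rfl fun v _ => Finset.sum_congr rfl fun t _ => ?_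
      rw [hNt]
      simp only
      by_cases a1 : Ns v
      · by_cases a2 : adj t v
        · rw [if_pos ⟨a1, a2⟩, if_pos a1, if_pos a2, mul_comm]
        · rw [if_neg fun h => a2 h.2, if_neg a2, mul_zero, mul_zero]
      · rw [if_neg fun h => a1 h.1, if_neg a1, mul_zero, zero_mul]
    rw [e1]
    have e2 : ∀ v, (if Ns v then vp v else 0) * q ≤ (if Ns v then vp v else 0) *
        ∑ t, (if adj t v then mu t else 0) := by
      intro v
      refine mul_le_mul_of_nonneg_left (hdeg v) ?_
      split_ifs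
      · exact hvp v
      · exact le_rfl
    refine le_trans ?_ (Finset.sum_le_sum fun v _ => e2 v)
    rw [← Finset.sum_mul, sq]
    exact mul_le_mul_of_nonneg_right hNs hq
  -- the cells
  obtain ⟨Zs, hZ, hZc⟩ := cell_card (V := V) (y := y) (X := X) (m := m) (u := u) (lam := lam)
    hy hlam hlam0
  have hcM : (Zs.card : ℝ) * M = 4 ^ m * C ^ (m + 1) := by
    have e1 : (Zs.card : ℝ) * M = (Zs.card * 2 ^ X) * (C / 2 ^ (k * X)) ^ (m + 1) := by
      rw [hMv]
      ring
    rw [e1, hZc, div_pow]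
    field_simp
  have hcM0 : (0 : ℝ) < 4 ^ m * C ^ (m + 1) := by positivity
  have h2 : ∀ t, f t ^ (2 * (m + 1)) / (4 ^ m * C ^ (m + 1)) ≤
      ∑ om : Fin (m + 1) → V, ∑ b : Fin (m + 1) → V, (if cel y u lam om = cel y u lam b then
        w0 vp (Nt t) om * w0 vp (Nt t) b / M else 0) := by
    intro t
    have e1 := cs_cell Zs (cel y u lam) hZ (fun om => w0 vp (Nt t) om)
    rw [w0_sum] at e1
    have e2 : (f t) ^ (2 * (m + 1)) = ((∑ v, if Nt t v then vp v else 0) ^ (m + 1)) ^ 2 := by
      rw [hf, ← pow_mul, mul_comm 2]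
    rw [e2, div_le_iff₀ hcM0, ← hcM]
    refine e1.trans (le_of_eq ?_)
    have e3 : ∑ om : Fin (m + 1) → V, ∑ b : Fin (m + 1) → V,
        (if cel y u lam om = cel y u lam b then w0 vp (Nt t) om * w0 vp (Nt t) b / M else 0) =
        (∑ om : Fin (m + 1) → V, ∑ b : Fin (m + 1) → V,
        (if cel y u lam om = cel y u lam b then w0 vp (Nt t) om * w0 vp (Nt t) b else 0)) / M := by
      rw [Finset.sum_div]
      refine Finset.sum_congr rfl fun om _ => ?_
      rw [Finset.sum_div]
      refine Finset.sum_congr rfl fun b _ => ?_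
      split_ifs
      · rfl
      · rw [zero_div]
    rw [e3]
    field_simp
  -- the sum
  have h3 : ∑ W : Bool × Fin (m + 1) → V, P0 vp y Ns u lam M W *
      ∑ t, (if ∀ a, adj t (W a) then mu t else 0) =
      ∑ t, mu t * ∑ om : Fin (m + 1) → V, ∑ b : Fin (m + 1) → V,
        (if cel y u lam om = cel y u lam b then w0 vp (Nt t) om * w0 vp (Nt t) b / M else 0) := by
    rw [sum_W]
    have e1 : ∀ t, mu t * ∑ om : Fin (m + 1) → V, ∑ b : Fin (m + 1) → V,
        (if cel y u lam om = cel y u lam b then w0 vp (Nt t) om * w0 vp (Nt t) b / M else 0) =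
        ∑ om : Fin (m + 1) → V, ∑ b : Fin (m + 1) → V, mu t *
        (if cel y u lam om = cel y u lam b then w0 vp (Nt t) om * w0 vp (Nt t) b / M else 0) := by
      intro t
      rw [Finset.mul_sum]
      exact Finset.sum_congr rfl fun om _ => by rw [Finset.mul_sum]
    have e2 : ∑ t, mu t * ∑ om : Fin (m + 1) → V, ∑ b : Fin (m + 1) → V,
        (if cel y u lam om = cel y u lam b then w0 vp (Nt t) om * w0 vp (Nt t) b / M else 0) =
        ∑ t, ∑ om : Fin (m + 1) → V, ∑ b : Fin (m + 1) → V, mu t *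
        (if cel y u lam om = cel y u lam b then w0 vp (Nt t) om * w0 vp (Nt t) b / M else 0) :=
      Finset.sum_congr rfl fun t _ => e1 t
    rw [e2]
    refine Eq.trans ?_ Finset.sum_comm
    refine Finset.sum_congr rfl fun om _ => ?_
    refine Eq.trans ?_ Finset.sum_comm
    refine Finset.sum_congr rfl fun b _ => ?_
    rw [Finset.mul_sum]
    refine Finset.sum_congr rfl fun t _ => ?_
    rw [P0_jn]
    by_cases a1 : cel y u lam om = cel y u lam b
    · rw [if_pos a1, if_pos a1]
      have key : ∀ z : Fin (m + 1) → V, (∀ j, adj t (z j)) →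
          w0 vp (Nt t) z = w0 vp Ns z := by
        intro z hz
        unfold w0
        refine Finset.prod_congr rfl fun j _ => ?_
        rw [hNt]
        simp only
        by_cases a3 : Ns (z j)
        · rw [if_pos a3, if_pos ⟨a3, hz j⟩]
        · rw [if_neg a3, if_neg fun h => a3 h.1]
      have key0 : ∀ z : Fin (m + 1) → V, (¬ ∀ j, adj t (z j)) → w0 vp (Nt t) z = 0 := by
        intro z hz
        push Not at hz
        obtain ⟨j, hj⟩ := hz
        unfold w0
        refine Finset.prod_eq_zero (Finset.mem_univ j) ?_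
        rw [hNt]
        simp only
        exact if_neg fun h => hj h.2
      by_cases a2 : ∀ a, adj t (jn om b a)
      · rw [if_pos a2, key om fun j => a2 (true, j), key b fun j => a2 (false, j), mul_comm]
      · rw [if_neg a2, mul_zero]
        by_cases a3 : ∀ j, adj t (om j)
        · have a4 : ¬ ∀ j, adj t (b j) := by
            intro a4
            apply a2
            rintro ⟨c, j⟩
            cases c
            · exact a4 j
            · exact a3 j
          rw [key0 b a4, mul_zero, zero_div, mul_zero]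
        · rw [key0 om a3, zero_mul, zero_div, mul_zero]
    · rw [if_neg a1, if_neg a1, zero_mul, mul_zero]
  rw [h3]
  have h4 := jen (a := q ^ 2 / 2) hmu hmu1 hf0 (by positivity) (by linarith) (2 * m + 1)
  have e5 : 2 * m + 1 + 1 = 2 * (m + 1) := by ring
  rw [e5] at h4
  rw [div_le_iff₀ hcM0]
  refine h4.trans ?_
  rw [Finset.sum_mul]
  refine Finset.sum_le_sum fun t _ => ?_
  rw [mul_assoc]
  refine mul_le_mul_of_nonneg_left ?_ (hmu t)
  have := h2 t
  rwa [div_le_iff₀ hcM0] at this

open Classical in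
/-- The weight of the tuples with a given value. -/
theorem P0_fib (hvp : ∀ v, 0 ≤ vp v)
    (hsp : ∀ a : Fin k → ℤ, (∑ v, if y v = a then vp v else 0) ≤ C / 2 ^ (k * X)) (hC : 0 < C)
    (hMv : M = 2 ^ X * (C / 2 ^ (k * X)) ^ (m + 1)) (b : Fin (m + 1) → V) (r : ℤ) :
    (∑ om : Fin (m + 1) → V, if y (om 0) u = r then P0 vp y Ns u lam M (jn om b) else 0) ≤
      w0 vp Ns b / 2 ^ X := by
  have hM : 0 < M := by
    rw [hMv]
    positivity
  have h1 : ∀ om : Fin (m + 1) → V, (if y (om 0) u = r then P0 vp y Ns u lam M (jn om b) else 0) ≤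
      w0 vp Ns b / M * (if y (om 0) u = r ∧ cel y u lam om = cel y u lam b then
        ∏ j, vp (om j) else 0) := by
    intro om
    by_cases a1 : y (om 0) u = r
    · rw [if_pos a1, P0_jn]
      by_cases a2 : cel y u lam om = cel y u lam b
      · rw [if_pos a2, if_pos ⟨a1, a2⟩]
        have e : w0 vp Ns om * w0 vp Ns b / M = w0 vp Ns b / M * w0 vp Ns om := by ring
        rw [e]
        exact mul_le_mul_of_nonneg_left (w0_le hvp om) (div_nonneg (w0_nn hvp b) hM.le)
      · rw [if_neg a2, if_neg fun h => a2 h.2, mul_zero]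
    · rw [if_neg a1, if_neg fun h => a1 h.1, mul_zero]
  refine (Finset.sum_le_sum fun om _ => h1 om).trans ?_
  rw [← Finset.mul_sum]
  have h2 := cell_fib (lam := lam) (u := u) (m := m) hvp hsp (cel y u lam b) r
  refine (mul_le_mul_of_nonneg_left h2 (div_nonneg (w0_nn hvp b) hM.le)).trans (le_of_eq ?_)
  rw [hMv]
  field_simp

end wt

end Pool.BD64
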