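import Pool.Agent.H21.BD.Sr
import Pool.Agent.H64.POT.Sam

/-!
# The star of a picture of degree `n`

`star1`: most worlds and times are in a graph of degree `n`. `time_line`, `wg_snd'`: the times, given
the block and the line.
-/

set_option autoImplicit false
set_option linter.unusedSectionVars false
set_option linter.unusedVariables false

namespace Pool.BD64

open Finset Real
open Pool.Agent.H49.Ent Pool.Agent.H32.Dense Pool.CH30 Pool.STK Pool.KS6 Pool.SLO Pool.RC21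
open Pool.ST79
open Pool.QC (QD)

variable {c k n : ℕ}

/-- **The star without nonfullness.** -/
theorem star1 (c k n : ℕ) {C : ℝ} (hC : 1 ≤ C) (N : ℕ) {ka ε0 ε : ℝ} (hka : 0 < ka)
    (hε0 : 0 < ε0) (hε : 0 < ε) : ∃ (io : ℝ) (X0 : ℕ), 0 < io ∧
    ∀ (H : QHd c k n) (X : ℕ), X0 ≤ X → H.Ok1 X C (io * X) →
    ∃ Z : Blk H.p H.b H.nu, Ex (tup (wg Z) H.KK N) (fun u =>
      ind (¬ H.GQ Z ε0 C ((2 : ℝ) ^ (-(ka * X))) X (wE Z (u 0).1) (fun j => H.T' (u j).2))) ≤
        ε := by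
  classical
  have hl2 : 0 < Real.log 2 := Real.log_pos (by norm_num)
  obtain ⟨J, hJ⟩ : ∃ J : ℝ, J = (N : ℝ) + 2 := ⟨_, rfl⟩
  have hJ0 : 0 < J := by rw [hJ]; positivity
  obtain ⟨η1, hη1⟩ : ∃ η1 : ℝ, η1 = ε * ε0 / (16 * J + 4) := ⟨_, rfl⟩
  have hη0 : 0 < η1 := by rw [hη1]; positivity
  obtain ⟨m, hn⟩ := exists_nat_gt ((c : ℝ) * (Real.log (5 * C) + Real.log 2) / η1)
  obtain ⟨A, hA⟩ : ∃ A : ℝ, A = (3 * (1 + 3 * J) + 2) * 8 / (ka * Real.log 2) +
    (8 * J * (3 ^ m + 1) + 4 * 3 ^ m) / ε0 := ⟨_, rfl⟩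
  have hA0 : 0 < A := by rw [hA]; positivity
  obtain ⟨io, hio⟩ : ∃ io : ℝ, io = ε / (2 * A) := ⟨_, rfl⟩
  have hio0 : 0 < io := by rw [hio]; positivity
  refine ⟨io, ⌈10 / ka⌉₊ + 1, hio0, ?_⟩
  intro H X hX ok
  have hp := ok.law
  have hX1 : 1 ≤ X := by omega
  have hx : (0 : ℝ) < X := by exact_mod_cast hX1
  have hx1 : (1 : ℝ) ≤ X := by exact_mod_cast hX1
  have hkx : 10 ≤ ka * X := by
    have a1 : 10 / ka ≤ ⌈10 / ka⌉₊ := Nat.le_ceil _
    have a2 : ((⌈10 / ka⌉₊ + 1 : ℕ) : ℝ) ≤ X := by exact_mod_cast hX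
    push_cast at a2
    rw [div_le_iff₀ hka] at a1
    nlinarith
  -- the finite types of the values
  have : Fintype (Set.range H.th) := Fintype.ofFinite _
  have : Fintype (Set.range H.v) := Fintype.ofFinite _
  obtain ⟨d, hd⟩ : ∃ d : ℝ, d = io * X := ⟨_, rfl⟩
  have hd0 : 0 < d := by rw [hd]; positivity
  obtain ⟨g', hg'⟩ : ∃ g' : Set.range H.th → Set.range H.v → Fin c → ℤ,
    g' = fun t l => H.g t.1 l.1 := ⟨_, rfl⟩
  have h1 : CH H.p H.nu H.b - CH H.p H.nu (fun ω => (H.V' ω, (H.T' ω, H.b ω))) ≤ d := by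
    have e : CH H.p H.nu (fun ω => (H.V' ω, (H.T' ω, H.b ω))) =
        CH H.p H.nu (fun ω => (H.v ω, (H.th ω, H.b ω))) := by
      refine CH_congr hp.nonneg (fun _ _ _ _ h => (Prod.ext_iff.1 h).1)
        (fun _ _ _ _ h => (Prod.ext_iff.1 h).1) ?_ ?_ <;>
      · intro w w' _ _ h
        simp only [V'_iff, T'_iff, Prod.mk.injEq] at h ⊢
        exact h
    rw [e, hd]
    exact ok.h1
  have h2 : CH H.p (fun ω => H.nu ω + g' (H.T' ω) (H.V' ω)) (fun ω => (H.T' ω, H.b ω)) -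
      CH H.p (fun ω => H.nu ω + g' (H.T' ω) (H.V' ω)) (fun ω => (H.V' ω, (H.T' ω, H.b ω))) ≤
        d := by
    have e1 : (fun ω => H.nu ω + g' (H.T' ω) (H.V' ω)) = H.hgt := by
      rw [hg']
      rfl
    have e2 : CH H.p H.hgt (fun ω => (H.T' ω, H.b ω)) =
        CH H.p H.hgt (fun ω => (H.th ω, H.b ω)) := by
      refine CH_congr hp.nonneg (fun _ _ _ _ h => (Prod.ext_iff.1 h).1)
        (fun _ _ _ _ h => (Prod.ext_iff.1 h).1) ?_ ?_ <;>
      · intro w w' _ _ h
        simp only [T'_iff, Prod.mk.injEq] at h ⊢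
        exact h
    have e3 : CH H.p H.hgt (fun ω => (H.V' ω, (H.T' ω, H.b ω))) =
        CH H.p H.hgt (fun ω => (H.v ω, (H.th ω, H.b ω))) := by
      refine CH_congr hp.nonneg (fun _ _ _ _ h => (Prod.ext_iff.1 h).1)
        (fun _ _ _ _ h => (Prod.ext_iff.1 h).1) ?_ ?_ <;>
      · intro w w' _ _ h
        simp only [V'_iff, T'_iff, Prod.mk.injEq] at h ⊢
        exact h
    rw [e1, e2, e3, hd]
    exact ok.h2
  have h3 : CH H.p H.T' H.b - CH H.p H.T' (fun ω => (H.V' ω, (H.nu ω, H.b ω))) ≤ d := by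
    have e1 : CH H.p H.T' H.b = CH H.p H.th H.b := by
      refine CH_congr hp.nonneg ?_ ?_ (fun _ _ _ _ h => h) (fun _ _ _ _ h => h) <;>
      · intro w w' _ _ h
        simp only [T'_iff, Prod.mk.injEq] at h ⊢
        exact h.1
    have e2 : CH H.p H.T' (fun ω => (H.V' ω, (H.nu ω, H.b ω))) = CH H.p H.th H.line := by
      refine CH_congr hp.nonneg ?_ ?_ ?_ ?_ <;>
      · intro w w' _ _ h
        simp only [V'_iff, T'_iff, QHd.line, Prod.mk.injEq] at h ⊢
        tauto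
    rw [e1, e2, hd]
    exact ok.h0
  -- the block
  have hent : CH H.p H.nu H.b < m * (η1 * X) := by
    refine (Pool.QT64.nu_ent H.toQ hp hC ok.nu_b).trans_lt ?_
    rw [div_lt_iff₀ hη0] at hn
    have hlC : 0 ≤ Real.log (5 * C) := Real.log_nonneg (by linarith)
    have a1 : (c : ℝ) * (Real.log (5 * C) + X * Real.log 2) ≤
        (c : ℝ) * (Real.log (5 * C) + Real.log 2) * X := by
      have a2 : Real.log (5 * C) ≤ Real.log (5 * C) * X := le_mul_of_one_le_right hlC hx1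
      have a3 : (c : ℝ) * (Real.log (5 * C) + X * Real.log 2) ≤
          (c : ℝ) * (Real.log (5 * C) * X + X * Real.log 2) :=
        mul_le_mul_of_nonneg_left (by linarith) (Nat.cast_nonneg c)
      linarith
    have a4 := mul_lt_mul_of_pos_right hn hx
    linarith
  obtain ⟨Z, hZt, hZd, hZs⟩ := pigeonT (b₀ := H.b) (n₀ := H.nu) hp.nonneg H.V' H.T' g'
    (η := η1 * X) m h1 h2 hd0.le hent
  have hZt2 := Z.dbl_t
  -- the graphs
  have hg : ∀ (t : Set.range H.th) (l : Set.range H.v) (i : Fin c), |(g' t l i : ℝ) -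
      (pol X (H.be l.1) (H.tau t.1) i - ∑ u, H.E t.1 u i * H.y l.1 u + H.a0 t.1 i + H.b0 l.1 i)| ≤ C := by
    intro t l i
    rw [hg']
    exact ok.g_eq t.1 l.1 i
  obtain ⟨q, hq⟩ : ∃ q : ℝ, q = (2 : ℝ) ^ (-(ka * X)) := ⟨_, rfl⟩
  have hq0 : 0 < q := by rw [hq]; positivity
  have hlq : Real.log (1 / (2 * q)) = ka * X * Real.log 2 - Real.log 2 := by
    rw [one_div, Real.log_inv, Real.log_mul (by norm_num) hq0.ne', hq,
      Real.log_rpow (by norm_num)]
    ring
  have hq1 : 4 * (ka * Real.log 2 / 8 * X + Real.log 2) ≤ Real.log (1 / (2 * q)) := by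
    rw [hlq]
    nlinarith
  have hq2 : 2 * q ≤ 1 := by
    have a1 : q ≤ (2 : ℝ) ^ (-(1 : ℝ)) := by
      rw [hq]
      exact Real.rpow_le_rpow_of_exponent_le (by norm_num) (by linarith)
    rw [Real.rpow_neg_one] at a1
    linarith
  have key := starn_qd (k := k) H.V' H.T' g' Z hp X (tau := fun t : Set.range H.th => H.tau t.1)
    (y := fun l : Set.range H.v => H.y l.1) (fun t => ok.tau_r t.1) (fun l => ok.y_r l.1)
    (fun t => H.E t.1) (fun l => H.be l.1) (fun t => H.a0 t.1) (fun l => H.b0 l.1) hC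
    (fun t => ok.E_b t.1) (fun l => ok.be_b l.1) hg h1 h2 h3 hZs
    (t := ε0 * X / 2) (ε := ε0 * X / 2) (K0 := ka * Real.log 2 / 8 * X) (q := q)
    (by positivity) (by positivity) (by positivity) hq0 hq1 hq2 (N + 1)
  have hε2 : ε0 * (X : ℝ) / 2 + ε0 * X / 2 = ε0 * X := by ring
  rw [hε2] at key
  -- the numbers
  have hbd : Ex (st H.V' H.T' g' Z (N + 1)) (fun v => ind (¬ GoodG n Z (ε0 * X) C q X
      (fun t : Set.range H.th => H.tau t.1) (fun t : Set.range H.th => H.E t.1) (eE Z (v 0))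
      (fun j : Fin (N + 1) => H.T' (v j.succ).2.1))) ≤ ε := by
    refine key.trans ?_
    have b1 : X * Real.log 2 - CH H.p (fun ω => (fun t : Set.range H.th => H.tau t.1) (H.T' ω))
        H.b ≤ io * X := by
      have := ok.t_f
      have e : CH H.p (fun ω => (fun t : Set.range H.th => H.tau t.1) (H.T' ω)) H.b =
          CH H.p (fun ω => H.tau (H.th ω)) H.b := rfl
      rw [e]
      linarith
    have b2 : k * X * Real.log 2 - CH H.p (fun ω => (fun l : Set.range H.v => H.y l.1) (H.V' ω))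
        H.b ≤ io * X := by
      have := ok.y_f
      have e : CH H.p (fun ω => (fun l : Set.range H.v => H.y l.1) (H.V' ω)) H.b =
          CH H.p (fun ω => H.y (H.v ω)) H.b := rfl
      rw [e]
      linarith
    have hJn : (((N + 1 : ℕ) : ℝ) + 1) = J := by
      rw [hJ]
      push_cast
      ring
    rw [hJn]
    have n3 : (0 : ℝ) < 3 ^ m := by positivity
    have hZt' : Z.t ≤ 3 ^ m * (io * X) := by rw [← hd]; exact hZt
    refine Pool.QT64.star_num (J := J) (η1 := η1) (n3 := 3 ^ m) (io := io) hJ0 hη0 hio0 hε0 hx hka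
      hl2 n3 ?_ ?_ ?_ ?_
    · rw [hd]
      nlinarith
    · rw [hd]
      nlinarith
    · nlinarith
    · have e1 : (3 * (1 + 3 * J) + 2) * 8 / (ka * Real.log 2) * io +
          (8 * J * (3 ^ m + 1) + 4 * 3 ^ m) / ε0 * io = A * io := by
        rw [hA]
        ring
      have e2 : A * io = ε / 2 := by
        rw [hio]
        field_simp
      have e3 : (8 * J + 2) / ε0 * η1 = ε / 2 := by
        rw [hη1]
        have : (0 : ℝ) < 16 * J + 4 := by positivity
        field_simp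
        ring
      linarith
  -- the conclusion
  refine ⟨Z, ?_⟩
  have hk : ∀ w w', 0 < wg Z w → 0 < wg Z w' →
      ((w.1 = w'.1 ∧ H.V' w.2 = H.V' w'.2) ↔ H.KK w = H.KK w') := by
    intro w w' hw hw'
    have a1 := wg_pos hp.nonneg Z hw
    have a2 := wg_pos hp.nonneg Z hw'
    constructor
    · rintro ⟨b1, b2⟩
      have b3 : H.v w.2 = H.v w'.2 := Subtype.ext_iff.1 b2
      refine Prod.ext b1 (Prod.ext ?_ (Prod.ext b3 ?_))
      · show H.nu w.2 = H.nu w'.2
        rw [← a1.2.2.1, ← a2.2.2.1, b1]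
      · show H.b w.2 = H.b w'.2
        rw [← a1.2.2.2, ← a2.2.2.2, b1]
    · intro h
      have b1 := Prod.ext_iff.1 h
      have b2 : (H.nu w.2, (H.v w.2, H.b w.2)) = (H.nu w'.2, (H.v w'.2, H.b w'.2)) := b1.2
      simp only [Prod.mk.injEq] at b2
      exact ⟨b1.1, Subtype.ext b2.2.1⟩
  have e1 := star_wl hp.nonneg H.V' H.T' g' Z H.KK hk N (fun e θ => ind (¬ GoodG n Z (ε0 * X) C q X
    (fun t : Set.range H.th => H.tau t.1) (fun t : Set.range H.th => H.E t.1) e θ))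
  rw [hq] at e1 hbd
  exact e1.symm.le.trans hbd

/-! ### The information of the times -/

section info

variable (H : QHd c k n) (Z : Blk H.p H.b H.nu)

theorem wg_law (hp : IsLaw H.p) : IsLaw (wg Z) := by
  refine ⟨wg_nn hp.nonneg Z, ?_⟩
  have h := (wg_fst Z).sum
  rw [h, blk_sum Z, hp.sum_one]

/-- A time, given the block and the line. -/
theorem time_line (hp : IsLaw H.p) : CH (wg Z) (fun w => H.th w.2) H.KK = CH H.p H.th H.line :=
  CH_snd_pair (p₁ := Z.p) (p₂ := H.p) (Z₁ := fun ω => (Z.y ω, Z.b ω))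
    (Z₂ := fun ω => (H.nu ω, H.b ω)) Z.nn hp.nonneg Z.ly (X := fun ω => ω)
    (fun ω ω' _ _ h => by
      have e : ω = ω' := h
      rw [e]) H.th (Y' := H.line) (fun ω ω' _ _ h => by
      have h1 := Prod.ext_iff.1 h
      exact Prod.ext h1.1 (Prod.ext_iff.1 h1.2).2)

theorem wg_snd' (hp : IsLaw H.p) {S U : Type} (f : H.Ω → S) (g : H.Ω → U) :
    CH (wg Z) (fun w => f w.2) (fun w => g w.2) = CH H.p f g :=
  (push_snd hp.nonneg Z.ly).CH f g

end info

end Pool.BD64
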