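import Pool.Agent.H21.BD.Bd
import Pool.Agent.H64.POT.Wld

/-!
# BODY of degree `n` when `nu` is almost independent of `v`

`bodyRn`: if `FullD` holds, `nu` is full in the body of `n + 2` times of its line, given the context
and the times.
-/

set_option autoImplicit false
set_option linter.unusedSectionVars false
set_option linter.unusedVariables false

namespace Pool.BD64

open Finset Real
open Pool.Agent.H49.Ent Pool.Agent.H32.Dense Pool.CH30 Pool.STK Pool.KS6 Pool.SLO Pool.RC21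
open Pool.ST79 Pool.FAD Pool.POT Pool.POT89
open Pool.QC (QD mat)
open Pool.BFL (Pb)

variable {c k n : ℕ}

section world

variable (H : QHd c k n) (Z : Blk H.p H.b H.nu)

/-- The law of the block at the world. -/
theorem world_DF (hp : IsLaw H.p) (N X : ℕ) (A : Matrix (Fin c) (Fin c) ℝ)
    (e : (Fin c → ℤ) × H.B) :
    DF (cond (tup (wg Z) H.KK N) (fun u => wE Z (u 0).1) e) (fun _ => Tx c X) (fun _ => A)
      (fun u => xv X (Z.y (u 0).1)) (fun _ => ()) =
    DF (rw' Z e) (fun _ => Tx c X) (fun _ => A) (fun ω => xv X (Z.y ω)) (fun _ => ()) :=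
  Pool.QT64.world_DF H.toQ Z hp N X A e

/-- The times carry little information about the block, given the world. -/
theorem time_info (hp : IsLaw H.p) (N : ℕ) {d : ℝ}
    (h0 : CH H.p H.th H.b - CH H.p H.th H.line ≤ d) :
    CH (tup (wg Z) H.KK N) (fun u => Z.y (u 0).1) (fun u => wE Z (u 0).1) -
      CH (tup (wg Z) H.KK N) (fun u => Z.y (u 0).1)
        (fun u => ((H.b (u 0).2, fun j => H.T' (u j).2), wE Z (u 0).1)) ≤ (N + 1) * d :=
  Pool.QT64.time_info H.toQ Z hp N h0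

/-- At a world with a graph, `nu` is full in the body of the times. -/
theorem good_DF {C η ka ε0 : ℝ} {X : ℕ}
    (hFull : ∀ (D : QD c k) (bs : D.VV → Fin (n + 1) → Fin c → ℝ),
      OkG D bs X C ((2 : ℝ) ^ (-(ka * X))) →
      ∀ (Ω : Type) (_ : Fintype Ω) (p : Ω → ℝ) (R : Ω → Fin c → ℤ), IsLaw p →
        Pool.QC.Absb p R D.A (ε0 * X) →
      ∀ s : Fin (n + 2) → D.TT, (2 : ℝ) ^ (-(ka * X)) ≤ D.cnV s →
      ∀ δ : Fin c → Fin c → ℝ,
        (∀ b, (∃ u, δ b = Pool.TT37.dd n D.tau D.E u s) ∨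
          ∃ i, δ b = Pi.single i ((2 : ℝ) ^ X)⁻¹) →
        (mat δ).det ≠ 0 → (∀ i j, |((mat δ)⁻¹) i j| ≤ 2 ^ X) →
        Pool.CLO.Ph p (fun ω i => (R ω i : ℝ) / 2 ^ X) (mat δ) ≤
          Pool.CLO.Ph p (fun ω i => (R ω i : ℝ) / 2 ^ X)
            (((2 : ℝ) ^ X)⁻¹ • (1 : Matrix (Fin c) (Fin c) ℝ)) + η * X)
    {e : Z.Ω} (he : 0 < Z.p e) (t : Fin (n + 2) → Set.range H.th)
    (hg : H.GQ Z ε0 C ((2 : ℝ) ^ (-(ka * X))) X (wE Z e) t) :
    DF (rw' Z (wE Z e)) (fun _ => Tx c X) (fun _ => bdd X n H.tau H.E (fun j => (t j).1))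
      (fun ω => xv X (Z.y ω)) (fun _ => ()) ≤ η * X := by
  obtain ⟨D, bs, hD, hA, s, hs, -, hq⟩ := hg
  have hr := rw_law Z he
  have h1 := hFull D bs hD Z.Ω Z.inst (rw' Z (wE Z e)) Z.y hr hA s hq
    (fun b => fmd X n H.tau H.E (fun j => (t j).1) (bfd X n H.tau H.E (fun j => (t j).1) b))
    (fun b => by
      rcases bfd X n H.tau H.E (fun j => (t j).1) b with u | i
      · left
        refine ⟨u, ?_⟩
        show Pool.TT37.dd n H.tau H.E u (fun j => (t j).1) = _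
        exact (dd_tr n H.tau H.E (t := fun j => (t j).1) (t' := s) (tau' := D.tau) (E' := D.E)
          (fun j => hs j) u).symm
      · exact Or.inr ⟨i, rfl⟩)
    (bdd_det X n H.tau H.E _) (bdd_inv X n H.tau H.E _)
  have h2 := Pool.CLO.DF_le_Ph hr (fun ω => xv X (Z.y ω)) (Tx c X)
    (bdd X n H.tau H.E (fun j => (t j).1))
  have hT : (((2 : ℝ) ^ X)⁻¹ • (1 : Matrix (Fin c) (Fin c) ℝ)) = Tx c X := by
    unfold Tx
    rw [← Matrix.diagonal_one, ← Matrix.diagonal_smul]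
    congr 1
    funext i
    simp
  rw [hT] at h1
  change Pool.CLO.Ph (rw' Z (wE Z e)) (fun ω => xv X (Z.y ω))
    (bdd X n H.tau H.E (fun j => (t j).1)) ≤
    Pool.CLO.Ph (rw' Z (wE Z e)) (fun ω => xv X (Z.y ω)) (Tx c X) + η * X at h1
  linarith

end world

/-- **BODY of degree `n` when `nu` is almost independent of `v`.** -/
theorem bodyRn (c k n : ℕ) (hF : FullD c k n) {C η : ℝ} (hC : 1 ≤ C) (hη : 0 < η) :
    ∃ (io : ℝ) (X0 : ℕ), 0 < io ∧
    ∀ (H : QHd c k n) (X : ℕ), X0 ≤ X → H.Ok1 X C (io * X) →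
    DF (tup H.p H.line (n + 1)) (fun _ => Tx c X)
      (fun w => bdd X n H.tau H.E (fun j => H.th (w j)))
      (fun w => xv X (H.nu (w 0)))
      (fun w => (H.b (w 0), fun j : Fin (n + 2) => H.th (w j))) ≤ η * X := by
  classical
  have hc0 : (0 : ℝ) ≤ c := Nat.cast_nonneg c
  have hn0 : (0 : ℝ) ≤ n := Nat.cast_nonneg n
  have hl2 : 0 < Real.log 2 := Real.log_pos (by norm_num)
  have hl3 : Real.log 2 < (0.6931471808 : ℝ) := Real.log_two_lt_d9
  obtain ⟨z, hz⟩ : ∃ z : ℝ, z = η / (8 * (c + 1)) := ⟨_, rfl⟩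
  have hz0 : 0 < z := by rw [hz]; positivity
  have hcz : c * z ≤ η / 8 := by
    rw [hz, mul_div_assoc', div_le_div_iff₀ (by positivity) (by norm_num)]
    nlinarith
  obtain ⟨N, hN⟩ := exists_nat_ge (((c : ℝ) + 1) / z)
  rw [div_le_iff₀ hz0] at hN
  obtain ⟨η1, hη1⟩ : ∃ η1 : ℝ, η1 = η / (8 * (N + 1)) := ⟨_, rfl⟩
  have hη10 : 0 < η1 := by rw [hη1]; positivity
  have hNη : N * η1 ≤ η / 8 := by
    rw [hη1, mul_div_assoc', div_le_div_iff₀ (by positivity) (by norm_num)]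
    nlinarith
  obtain ⟨ka, ε0, X1, hka, hε0, hFull⟩ := hF C η1 hC hη10
  obtain ⟨ε, hε⟩ : ∃ ε : ℝ, ε = min 1 (η / (8 * (c + 1))) := ⟨_, rfl⟩
  have hε0' : 0 < ε := by rw [hε]; positivity
  have hε1 : ε ≤ 1 := by rw [hε]; exact min_le_left _ _
  have hcε : ε * c ≤ η / 8 := by
    have h1 : ε ≤ η / (8 * (c + 1)) := by rw [hε]; exact min_le_right _ _
    calc ε * c ≤ η / (8 * (c + 1)) * c := mul_le_mul_of_nonneg_right h1 hc0
      _ ≤ η / 8 := by
        rw [div_mul_eq_mul_div, div_le_div_iff₀ (by positivity) (by norm_num)]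
        nlinarith
  obtain ⟨io, X2, hio, hStar⟩ := star1 c k n hC (n + 1) hka hε0 hε0'
  -- the constants
  obtain ⟨KC, hKC⟩ : ∃ KC : ℝ, KC = ((n : ℝ) + 2) * C := ⟨_, rfl⟩
  have hKC1 : 1 ≤ KC := by
    rw [hKC]
    nlinarith
  obtain ⟨Kc, hKc⟩ : ∃ Kc : ℝ, Kc = N * |Csb c| + (Cc c c + c * Real.log 5) +
    (|Lb c KC| + Cc c ((c : ℝ) + 1)) := ⟨_, rfl⟩
  obtain ⟨X3, hX3⟩ := exists_nat_ge (|Lb c KC| + 1)
  obtain ⟨X4, hX4⟩ := exists_nat_ge (Kc / (η / 8))
  obtain ⟨i0, hi0⟩ : ∃ i0 : ℝ, i0 = η / (8 * (n + 2)) := ⟨_, rfl⟩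
  have hi00 : 0 < i0 := by rw [hi0]; positivity
  have hi1 : ((n : ℝ) + 2) * i0 = η / 8 := by
    rw [hi0]
    field_simp
  refine ⟨min io i0, max (max X1 X2) (max X3 X4), by positivity, fun H X hX ok => ?_⟩
  have l1 : X1 ≤ X := (le_max_left _ _).trans ((le_max_left _ _).trans hX)
  have l2 : X2 ≤ X := (le_max_right _ _).trans ((le_max_left _ _).trans hX)
  have l3 : (X3 : ℝ) ≤ X := by
    exact_mod_cast (le_max_left _ _).trans ((le_max_right _ _).trans hX)
  have l4 : (X4 : ℝ) ≤ X := by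
    exact_mod_cast (le_max_right _ _).trans ((le_max_right _ _).trans hX)
  have hXR : (0 : ℝ) ≤ X := Nat.cast_nonneg X
  have hio1 : min io i0 * X ≤ io * X := mul_le_mul_of_nonneg_right (min_le_left _ _) hXR
  have hio2 : min io i0 * X ≤ i0 * X := mul_le_mul_of_nonneg_right (min_le_right _ _) hXR
  have hp := ok.law
  obtain ⟨Z, hZ⟩ := hStar H X l2 (Ok1_mono ok hio1)
  have hw := wg_nn hp.nonneg Z
  have hP : IsLaw (tup (wg Z) H.KK (n + 1)) := tup_isLaw (wg_law H Z hp) _ _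
  have hlaw : ∀ u, 0 < tup (wg Z) H.KK (n + 1) u → 0 < Z.p (u 0).1 ∧
      Z.b (u 0).1 = H.b (u 0).2 ∧ Z.y (u 0).1 = H.nu (u 0).2 := fun u hu =>
    have h1 := wg_pos hp.nonneg Z (((tup_pos_iff hw _ _ u).1 hu).1 0)
    ⟨h1.1, h1.2.2.2, h1.2.2.1⟩
  -- the numbers
  have hLb : Lb c KC + c * (X * Real.log 2) < (N + 1) * (z * X) := by
    have e1 : Lb c KC < X := by
      have := le_abs_self (Lb c KC)
      linarith
    have e2 : (c : ℝ) * (X * Real.log 2) ≤ c * X := by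
      refine mul_le_mul_of_nonneg_left ?_ hc0
      nlinarith
    have e3 : ((c : ℝ) + 1) * X ≤ N * z * X := mul_le_mul_of_nonneg_right hN hXR
    have e4 : 0 ≤ z * X := by positivity
    nlinarith
  have key := body_w hP X (fun u : Fin (n + 1 + 1) → Z.Ω × H.Ω => Z.y (u 0).1)
    (x := fun u => xv X (Z.y (u 0).1)) (fun u u' _ _ h => by
      simp only at h ⊢
      rw [h]) (fun u => wE Z (u 0).1)
    (fun u => (H.b (u 0).2, fun j : Fin (n + 2) => H.T' (u j).2))
    (A := fun t : H.B × (Fin (n + 2) → Set.range H.th) =>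
      bdd X n H.tau H.E (fun j => (t.2 j).1))
    (K1 := KC) (by linarith) (fun t => bdd_det X n H.tau H.E _)
    (fun t => by
      rw [hKC]
      exact bdd_entry X n H.tau H.E hC _ (fun j => ok.E_b _)) (fun t => bdd_inv X n H.tau H.E _)
    (Good := fun e t => H.GQ Z ε0 C ((2 : ℝ) ^ (-(ka * X))) X e t.2)
    (E0 := η1 * X) (E2 := (n + 2) * (min io i0 * X)) (Y := z * X) (by positivity)
    (by positivity) hLb (fun u hu t' hg => by
      rw [world_DF H Z hp (n + 1) X]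
      exact good_DF H Z (hFull · · X l1) (hlaw u hu).1 t'.2 hg)
    (by
      have := time_info H Z hp (n + 1) ok.h0
      refine this.trans (le_of_eq ?_)
      push_cast
      ring)
  rw [Pb_eq] at key
  -- from the star to the line
  have hd1 := DF_drop hP.nonneg (fun _ => Tx c X)
    (fun u : Fin (n + 1 + 1) → Z.Ω × H.Ω => bdd X n H.tau H.E (fun j => (H.T' (u j).2).1))
    (fun u => xv X (Z.y (u 0).1))
    (Z := fun u => ((H.b (u 0).2, fun j : Fin (n + 2) => H.T' (u j).2), wE Z (u 0).1))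
    (Z' := fun u => (H.b (u 0).2, fun j : Fin (n + 2) => H.th (u j).2)) (by
      intro u u' _ _ h
      have e1 := (Prod.ext_iff.1 (Prod.ext_iff.1 h).1)
      have e2 : ∀ j, H.th (u j).2 = H.th (u' j).2 := fun j =>
        (T'_iff H _ _).1 (congrFun e1.2 j)
      have e3 : H.b (u 0).2 = H.b (u' 0).2 := e1.1
      simp only [e2, e3])
  have hwl : Pool.QT64.QH.wl H.toQ (rk Z) = wg Z := by
    funext w
    exact wg_eq hp.nonneg Z H.v w
  have him : Marg (tup (wg Z) H.KK (n + 1)) (tup H.p H.line (n + 1)) (fun v j => (v j).2) := by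
    rw [← hwl]
    exact Pool.QT64.wl_marg H.toQ (rk_one hp Z) (n + 1)
  have hd2 := DF_image (q := tup (wg Z) H.KK (n + 1)) (p := tup H.p H.line (n + 1))
    (f := fun v j => (v j).2) him X
    (fun w => bdd X n H.tau H.E (fun j => H.th (w j))) (fun w => H.nu (w 0))
    (fun w => (H.b (w 0), fun j : Fin (n + 2) => H.th (w j)))
  rw [← hd2]
  have hd3 : DF (tup (wg Z) H.KK (n + 1)) (fun _ => Tx c X)
      (fun u => bdd X n H.tau H.E (fun j => H.th (u j).2))
      (fun u => xv X (H.nu (u 0).2))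
      (fun u => (H.b (u 0).2, fun j : Fin (n + 2) => H.th (u j).2)) =
      DF (tup (wg Z) H.KK (n + 1)) (fun _ => Tx c X)
      (fun u => bdd X n H.tau H.E (fun j => (H.T' (u j).2).1))
      (fun u => xv X (Z.y (u 0).1))
      (fun u => (H.b (u 0).2, fun j : Fin (n + 2) => H.th (u j).2)) := by
    rw [DF_xv, DF_xv]
    congr 1
    refine CH_supp hP.nonneg (fun u hu => (hlaw u hu).2.2.symm) (fun u hu => ?_)
    rw [(hlaw u hu).2.2]
    rfl
  rw [hd3]
  refine hd1.trans (key.trans ?_)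
  -- the bound
  have q1 : (N : ℝ) * (η1 * X + |Csb c|) ≤ η / 8 * X + N * |Csb c| := by
    have := mul_le_mul_of_nonneg_right hNη hXR
    nlinarith
  have q2 : ((n : ℝ) + 2) * (min io i0 * X) ≤ η / 8 * X := by
    have h1 := mul_le_mul_of_nonneg_left hio2 (by positivity : (0 : ℝ) ≤ (n : ℝ) + 2)
    have h2 : ((n : ℝ) + 2) * (i0 * X) = η / 8 * X := by rw [← mul_assoc, hi1]
    rw [h2] at h1
    exact h1
  have q3 : c * (z * X) ≤ η / 8 * X := by
    have := mul_le_mul_of_nonneg_right hcz hXR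
    linarith
  have q4 : Ex (tup (wg Z) H.KK (n + 1)) (fun u => ind (¬ H.GQ Z ε0 C ((2 : ℝ) ^ (-(ka * X))) X
      (wE Z (u 0).1) (fun j => H.T' (u j).2))) *
      (Lb c KC + c * (X * Real.log 2) + Cc c ((c : ℝ) + 1)) ≤
      η / 8 * X + (|Lb c KC| + Cc c ((c : ℝ) + 1)) := by
    have c1 := Cc_nonneg (c := c) (a := (c : ℝ) + 1) (by linarith)
    have c2 := le_abs_self (Lb c KC)
    have c3 : 0 ≤ Ex (tup (wg Z) H.KK (n + 1)) (fun u => ind (¬ H.GQ Z ε0 C
      ((2 : ℝ) ^ (-(ka * X))) X (wE Z (u 0).1) (fun j => H.T' (u j).2))) :=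
      Ex_nonneg hP.nonneg fun _ _ => ind_nonneg _
    have c4 : (c : ℝ) * (X * Real.log 2) ≤ c * X := by
      refine mul_le_mul_of_nonneg_left ?_ hc0
      nlinarith
    have c5 : 0 ≤ (c : ℝ) * X := by positivity
    calc _ ≤ Ex (tup (wg Z) H.KK (n + 1)) (fun u => ind (¬ H.GQ Z ε0 C
          ((2 : ℝ) ^ (-(ka * X))) X (wE Z (u 0).1) (fun j => H.T' (u j).2))) *
          (|Lb c KC| + c * X + Cc c ((c : ℝ) + 1)) :=
          mul_le_mul_of_nonneg_left (by linarith) c3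
      _ ≤ ε * (|Lb c KC| + c * X + Cc c ((c : ℝ) + 1)) :=
          mul_le_mul_of_nonneg_right hZ (by
            have := abs_nonneg (Lb c KC)
            linarith)
      _ ≤ _ := by
          have d1 := abs_nonneg (Lb c KC)
          have d2 := mul_le_mul_of_nonneg_right hcε hXR
          have d3 : ε * (|Lb c KC| + Cc c ((c : ℝ) + 1)) ≤
              1 * (|Lb c KC| + Cc c ((c : ℝ) + 1)) :=
            mul_le_mul_of_nonneg_right hε1 (by linarith)
          nlinarith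
  have q5 : Kc ≤ η / 8 * X := by
    have := hX4.trans l4
    rw [div_le_iff₀ (by positivity)] at this
    linarith
  rw [hKc] at q5
  have q6 : 0 ≤ η * X := by positivity
  linarith

end Pool.BD64
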